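import Mathlib

/-!
# The real-variable inequality behind the Lyapunov function
-/

open Finset

set_option maxHeartbeats 4000000

namespace Pool.Agent.V5helper99.Urn.Core

theorem log_lower {d : ℝ} (h : -(1/2) ≤ d) : d - 2 * d ^ 2 ≤ Real.log (1 + d) := by
  have h1 : 0 < 1 + d := by linarith
  have h2 := Real.one_sub_inv_le_log_of_pos h1
  have h3 : d - 2 * d ^ 2 ≤ 1 - (1 + d)⁻¹ := by
    rw [inv_eq_one_div, le_sub_iff_add_le, ← le_sub_iff_add_le', div_le_iff₀ h1]
    nlinarith [mul_nonneg (sq_nonneg d) (by linarith : (0:ℝ) ≤ 1 + 2 * d)]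
  exact h3.trans h2

theorem inv_upper {d : ℝ} (h : -(1/2) ≤ d) : 1 / (1 + d) ≤ 1 - d + 2 * d ^ 2 := by
  have h1 : 0 < 1 + d := by linarith
  rw [div_le_iff₀ h1]
  nlinarith [mul_nonneg (sq_nonneg d) (by linarith : (0:ℝ) ≤ 1 + 2 * d)]

/-- pointwise bound -/
theorem pointwise {Z dZ W W' N dN C d D : ℝ} (hZ : 0 < Z) (hZ' : 0 < Z + dZ) (hW : 0 < W)
    (hd : W' = W * (1 + d)) (hdD : |d| ≤ D) (hD : D ≤ 1 / 2) (hN : 2 ≤ N) (hdN : |dN| ≤ 2)
    (hC : 0 ≤ C) :
    Real.log (Z + dZ) - Real.log W' + C * ((N + dN) / W') ≤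
      Real.log Z - Real.log W + C * (N / W) +
        (dZ / Z - d + 2 * D ^ 2) + (C / W) * (dN - N * d + 2 * D + 4 * N * D ^ 2) := by
  have hd1 : -(1/2) ≤ d := by
    have := (abs_le.1 hdD).1
    linarith
  have h1d : 0 < 1 + d := by linarith
  have hD0 : 0 ≤ D := (abs_nonneg d).trans hdD
  have hdd : d ^ 2 ≤ D ^ 2 := by
    rw [← sq_abs d]
    exact pow_le_pow_left₀ (abs_nonneg d) hdD 2
  have a1 : Real.log (Z + dZ) ≤ Real.log Z + dZ / Z := by
    have : Z + dZ = Z * ((Z + dZ) / Z) := by field_simp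
    rw [this, Real.log_mul hZ.ne' (by positivity)]
    have h2 := Real.log_le_sub_one_of_pos (show 0 < (Z + dZ) / Z by positivity)
    have h3 : (Z + dZ) / Z - 1 = dZ / Z := by field_simp; ring
    linarith
  have a2 : Real.log W + d - 2 * D ^ 2 ≤ Real.log W' := by
    rw [hd, Real.log_mul hW.ne' h1d.ne']
    have := log_lower hd1
    linarith
  have hNd : 0 ≤ N + dN := by
    have := (abs_le.1 hdN).1
    linarith
  have a3 : (N + dN) / W' ≤ N / W + (dN - N * d + 2 * D + 4 * N * D ^ 2) / W := by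
    have h4 : (N + dN) / W' = ((N + dN) / W) * (1 / (1 + d)) := by
      rw [hd]
      field_simp
    rw [h4]
    have h5 := mul_le_mul_of_nonneg_left (inv_upper hd1)
      (show 0 ≤ (N + dN) / W by positivity)
    refine h5.trans ?_
    rw [← add_div, div_mul_eq_mul_div]
    apply div_le_div_of_nonneg_right _ hW.le
    have h6 : -(dN * d) ≤ 2 * D := by
      have : |dN * d| ≤ 2 * D := by
        rw [abs_mul]
        exact mul_le_mul hdN hdD (abs_nonneg _) (by norm_num)
      linarith [(abs_le.1 this).1]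
    have h7 : (N + dN) * (2 * d ^ 2) ≤ (2 * N) * (2 * D ^ 2) := by
      have : dN ≤ 2 := (abs_le.1 hdN).2
      exact mul_le_mul (by linarith) (by linarith) (by positivity) (by linarith)
    nlinarith only [h6, h7]
  have a4 := mul_le_mul_of_nonneg_left a3 hC
  have e : C * (N / W + (dN - N * d + 2 * D + 4 * N * D ^ 2) / W) =
      C * (N / W) + (C / W) * (dN - N * d + 2 * D + 4 * N * D ^ 2) := by ring
  rw [e] at a4
  linarith

/-- the scalar inequality: everything multiplied by `N`; `u = U / N`, `w = u + B` -/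
theorem scalar {lam rho B M C u w nu q K k : ℝ}
    (hl1 : 1 < lam) (hl2 : lam ≤ 2) (hr : rho < lam)
    (hB : 1 ≤ B) (hBk : 128 ≤ B * (2 * lam - 2))
    (hu : 0 ≤ u) (hw : w = u + B) (hnu : |nu| ≤ 2)
    (hM : 2 * (6 * B + 64) ≤ M * (lam - rho)) (hM0 : 0 ≤ M)
    (hC : C = 144 * (M + B) ^ 2)
    (hK : 0 ≤ K) (hk : 0 ≤ k) (hq : 1 ≤ q)
    (D : ℝ) (hD0 : 0 ≤ D) (hD1 : 16 * (M + B) * D ≤ 1) (hD2 : 8 * C * D ≤ lam - rho)
    (hN1 : 32 * K ^ 2 * (M + B) ≤ q) (hN2 : 32 * K ^ 2 * C ≤ q * (lam - rho))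
    (hN3 : 2 * k + 4 * K ^ 2 ≤ q) (hN4 : 2 * (2 * k + 4 * K ^ 2) ≤ q * (lam - rho)) :
    (2 * rho + 2 * k / q) - (2 * lam * u + lam ^ 2 + B * nu) / w +
      (16 * lam ^ 2 * u + 4 * K ^ 2 / q) / w ^ 2 +
      (C / w) * (-((2 * lam - nu) * u + lam ^ 2) / w + 2 * D +
        (32 * lam ^ 2 * u + 8 * K ^ 2 / q) / w ^ 2) ≤ - min 1 ((lam - rho) / 4) := by
  obtain ⟨hnu1, hnu2⟩ := abs_le.1 hnu
  have hB0 : 0 < B := by linarith
  have hw0 : 0 < w := by rw [hw]; linarith
  have hw1 : 1 ≤ w := by rw [hw]; linarith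
  have hBw : B ≤ w := by rw [hw]; linarith
  have hMB : 1 ≤ M + B := by linarith
  have hC0 : 0 < C := by rw [hC]; positivity
  have hq0 : 0 < q := by linarith
  have hlam2 : lam ^ 2 ≤ 4 := by nlinarith only [hl1, hl2]
  have hlam1 : 1 ≤ lam ^ 2 := by nlinarith only [hl1]
  have hgap : 0 < lam - rho := by linarith
  -- the second bracket
  have b1 : -((2 * lam - nu) * u + lam ^ 2) / w + (32 * lam ^ 2 * u) / w ^ 2 ≤ - 1 / w := by
    have : -((2 * lam - nu) * u + lam ^ 2) / w + (32 * lam ^ 2 * u) / w ^ 2 =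
        (-((2 * lam - nu) * u + lam ^ 2) * w + 32 * lam ^ 2 * u) / w ^ 2 := by
      field_simp
    rw [this, div_le_div_iff₀ (by positivity) hw0]
    have h1 : 32 * lam ^ 2 * u ≤ (2 * lam - nu) * u * w := by
      have h2 : 32 * lam ^ 2 ≤ (2 * lam - nu) * w := by
        calc 32 * lam ^ 2 ≤ 128 := by linarith
          _ ≤ B * (2 * lam - 2) := hBk
          _ ≤ w * (2 * lam - nu) := mul_le_mul hBw (by linarith) (by linarith) hw0.le
          _ = _ := by ring
      nlinarith only [mul_le_mul_of_nonneg_right h2 hu]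
    have h3 : -((2 * lam - nu) * u + lam ^ 2) * w + 32 * lam ^ 2 * u ≤ - w := by nlinarith only [h1, mul_le_mul_of_nonneg_right hlam1 hw0.le]
    nlinarith only [mul_le_mul_of_nonneg_right h3 hw0.le]
  have b2 : (8 * K ^ 2 / q) / w ^ 2 ≤ 8 * K ^ 2 / q := by
    apply div_le_self (by positivity)
    nlinarith only [hw1]
  have b3 : 2 * D + 8 * K ^ 2 / q ≤ 1 / (2 * (M + B)) - 0 := by
    have e1 : 2 * D ≤ 1 / (4 * (M + B)) := by
      rw [le_div_iff₀ (by positivity)]; nlinarith only [hD1]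
    have e2 : 8 * K ^ 2 / q ≤ 1 / (4 * (M + B)) := by
      rw [div_le_div_iff₀ hq0 (by positivity)]; nlinarith only [hN1]
    have e3 : 1 / (2 * (M + B)) = 1 / (4 * (M + B)) + 1 / (4 * (M + B)) := by
      field_simp; norm_num
    linarith
  have b4 : C * (2 * D + 8 * K ^ 2 / q) ≤ (lam - rho) / 2 := by
    have e1 : C * (2 * D) ≤ (lam - rho) / 4 := by nlinarith only [hD2]
    have e2 : C * (8 * K ^ 2 / q) ≤ (lam - rho) / 4 := by
      rw [← mul_div_assoc, div_le_iff₀ hq0]; nlinarith only [hN2]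
    linarith
  have hD8 : 0 ≤ 2 * D + 8 * K ^ 2 / q := by positivity
  have bb : -((2 * lam - nu) * u + lam ^ 2) / w + 2 * D +
        (32 * lam ^ 2 * u + 8 * K ^ 2 / q) / w ^ 2 ≤ -1 / w + (2 * D + 8 * K ^ 2 / q) := by
    rw [add_div]
    linarith
  -- the first bracket
  have c1 : - (2 * lam * u + lam ^ 2 + B * nu) / w ≤ - 2 * lam + 6 * B / w := by
    rw [div_le_iff₀ hw0, add_mul, div_mul_cancel₀ _ hw0.ne', hw]
    nlinarith only [hlam1, mul_le_mul_of_nonneg_left hl2 hB0.le, mul_le_mul_of_nonneg_left hnu1 hB0.le, mul_le_mul_of_nonneg_left hnu2 hB0.le]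
  have c2 : (16 * lam ^ 2 * u + 4 * K ^ 2 / q) / w ^ 2 ≤ 64 / w + 4 * K ^ 2 / q := by
    rw [add_div]
    have e1 : 16 * lam ^ 2 * u / w ^ 2 ≤ 64 / w := by
      rw [div_le_div_iff₀ (by positivity) hw0]
      have : 16 * lam ^ 2 * u ≤ 64 * w := by
        have := mul_le_mul (show 16 * lam ^ 2 ≤ 64 by linarith) (show u ≤ w by rw [hw]; linarith) hu
          (by norm_num)
        linarith
      nlinarith only [mul_le_mul_of_nonneg_right this hw0.le]
    have e2 : 4 * K ^ 2 / q / w ^ 2 ≤ 4 * K ^ 2 / q := by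
      apply div_le_self (by positivity)
      nlinarith only [hw1]
    linarith
  have c3 : 2 * k / q + 4 * K ^ 2 / q ≤ 1 := by
    rw [← add_div, div_le_one hq0]; linarith
  have c4 : 2 * k / q + 4 * K ^ 2 / q ≤ (lam - rho) / 2 := by
    rw [← add_div, div_le_iff₀ hq0]; linarith
  have cc : (2 * rho + 2 * k / q) - (2 * lam * u + lam ^ 2 + B * nu) / w +
      (16 * lam ^ 2 * u + 4 * K ^ 2 / q) / w ^ 2 ≤ - 2 * (lam - rho) + (6 * B + 64) / w +
        (2 * k / q + 4 * K ^ 2 / q) := by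
    have e1 : - (2 * lam * u + lam ^ 2 + B * nu) / w = -((2 * lam * u + lam ^ 2 + B * nu) / w) := by
      ring
    have e2 : (6 * B + 64) / w = 6 * B / w + 64 / w := by ring
    rw [e2]
    rw [e1] at c1
    linarith
  have hCw : 0 < C / w := by positivity
  have bb' := mul_le_mul_of_nonneg_left bb hCw.le
  rcases le_or_gt u M with huM | huM
  · -- small u
    have hwM : w ≤ M + B := by rw [hw]; linarith
    have d1 : (C / w) * (-1 / w + (2 * D + 8 * K ^ 2 / q)) ≤ - 72 := by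
      have f1 : 2 * D + 8 * K ^ 2 / q ≤ 1 / (2 * w) := by
        have : 1 / (2 * (M + B)) ≤ 1 / (2 * w) :=
          one_div_le_one_div_of_le (by positivity) (by linarith)
        linarith
      have f2 : -1 / w + (2 * D + 8 * K ^ 2 / q) ≤ - (1 / (2 * w)) := by
        have : -1 / w = - (1 / (2 * w)) - 1 / (2 * w) := by field_simp; norm_num
        linarith
      have f3 := mul_le_mul_of_nonneg_left f2 hCw.le
      have f4 : (C / w) * (- (1 / (2 * w))) = - (C / (2 * w ^ 2)) := by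
        field_simp
      rw [f4] at f3
      have f5 : 72 ≤ C / (2 * w ^ 2) := by
        rw [le_div_iff₀ (by positivity), hC]
        nlinarith only [pow_le_pow_left₀ hw0.le hwM 2]
      linarith
    have d2 : (6 * B + 64) / w ≤ 70 := by
      rw [div_le_iff₀ hw0]; nlinarith only [hBw, hw1]
    have := min_le_left 1 ((lam - rho) / 4)
    linarith
  · -- large u
    have hwM : M ≤ w := by rw [hw]; linarith
    have hM1 : 0 < M := by
      by_contra h
      have : M = 0 := le_antisymm (not_lt.1 h) hM0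
      rw [this] at hM
      linarith
    have d1 : (C / w) * (-1 / w + (2 * D + 8 * K ^ 2 / q)) ≤ (lam - rho) / 2 := by
      have f1 : -1 / w + (2 * D + 8 * K ^ 2 / q) ≤ 2 * D + 8 * K ^ 2 / q := by
        have : -1 / w ≤ 0 := div_nonpos_of_nonpos_of_nonneg (by norm_num) hw0.le
        linarith
      have f3 := mul_le_mul_of_nonneg_left f1 hCw.le
      have f4 : (C / w) * (2 * D + 8 * K ^ 2 / q) ≤ C * (2 * D + 8 * K ^ 2 / q) :=
        mul_le_mul_of_nonneg_right (div_le_self hC0.le hw1) hD8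
      linarith
    have d2 : (6 * B + 64) / w ≤ (lam - rho) / 2 := by
      rw [div_le_iff₀ hw0]
      nlinarith only [mul_le_mul_of_nonneg_right hwM hgap.le, hM]
    have := min_le_right 1 ((lam - rho) / 4)
    linarith

end Pool.Agent.V5helper99.Urn.Core
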