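import Pool.Agent.V5helper99.Urn.Core

/-!
# The drift inequality
-/

open Finset

set_option maxHeartbeats 4000000

namespace Pool.Agent.V5helper99.Urn.Core

theorem sq_norm_add (L w : ℂ) (lam : ℝ) (hw : ‖w‖ = 1) :
    ‖L + lam * w‖ ^ 2 = ‖L‖ ^ 2 + 2 * lam * (L * (starRingEnd ℂ) w).re + lam ^ 2 := by
  rw [Complex.sq_norm, Complex.normSq_add, Complex.sq_norm]
  have h1 : Complex.normSq (lam * w) = lam ^ 2 := by
    rw [Complex.normSq_mul, Complex.normSq_ofReal, ← Complex.sq_norm w, hw]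
    ring
  have h2 : (L * (starRingEnd ℂ) ((lam : ℂ) * w)).re = lam * (L * (starRingEnd ℂ) w).re := by
    rw [map_mul, Complex.conj_ofReal]
    rw [show L * ((lam : ℂ) * (starRingEnd ℂ) w) = (lam : ℂ) * (L * (starRingEnd ℂ) w) by ring]
    rw [Complex.re_ofReal_mul]
  rw [h1, h2]
  ring

theorem drift (lam rho k : ℝ) (hl1 : 1 < lam) (hl2 : lam ≤ 2) (hr : rho < lam) (hk : 0 ≤ k) :
    ∃ B : ℝ, 1 ≤ B ∧ ∃ C : ℝ, 0 ≤ C ∧ ∃ c : ℝ, 0 < c ∧ ∃ R : ℝ, 2 ≤ R ∧
      ∀ {ι : Type} [Fintype ι] (n : ι → ℝ) (w : ι → ℂ) (Z : ℝ) (dZ dN : ι → ℝ) (N : ℝ) (L : ℂ),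
        (∀ v, 0 ≤ n v) → (∀ v, ‖w v‖ = 1) → N = ∑ v, n v → R ≤ N → L = ∑ v, (n v : ℂ) * w v →
        (∀ v, |dN v| ≤ 2) → 0 < Z → N ^ 2 ≤ k * Z → (∀ v, 0 < n v → 0 < Z + dZ v) →
        ∑ v, n v * dZ v ≤ 2 * rho * Z + 2 * N →
        ∑ v, (n v / N) * (Real.log (Z + dZ v) - Real.log (‖L + lam * w v‖ ^ 2 + B * (N + dN v)) +
          C * ((N + dN v) / (‖L + lam * w v‖ ^ 2 + B * (N + dN v)))) ≤
        Real.log Z - Real.log (‖L‖ ^ 2 + B * N) + C * (N / (‖L‖ ^ 2 + B * N)) - c / N := by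
  have hgap : 0 < lam - rho := by linarith
  obtain ⟨B, hBdef⟩ : ∃ B : ℝ, B = 128 / (2 * lam - 2) + 1 := ⟨_, rfl⟩
  have hB : 1 ≤ B := by
    rw [hBdef]
    have : 0 ≤ 128 / (2 * lam - 2) := div_nonneg (by norm_num) (by linarith)
    linarith
  have hBk : 128 ≤ B * (2 * lam - 2) := by
    rw [hBdef, add_mul, div_mul_cancel₀ _ (by linarith)]
    linarith
  obtain ⟨M, hMdef⟩ : ∃ M : ℝ, M = 2 * (6 * B + 64) / (lam - rho) := ⟨_, rfl⟩
  have hM0 : 0 ≤ M := by rw [hMdef]; positivity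
  have hM : 2 * (6 * B + 64) ≤ M * (lam - rho) := by
    rw [hMdef, div_mul_cancel₀ _ hgap.ne']
  obtain ⟨C, hC⟩ : ∃ C : ℝ, C = 144 * (M + B) ^ 2 := ⟨_, rfl⟩
  have hC0 : 0 < C := by rw [hC]; positivity
  obtain ⟨K, hKdef⟩ : ∃ K : ℝ, K = 4 + 2 * B := ⟨_, rfl⟩
  have hK : 0 ≤ K := by rw [hKdef]; linarith
  -- thresholds
  obtain ⟨e, he⟩ : ∃ e : ℝ, e = min (1/2) (min (1 / (16 * (M + B))) ((lam - rho) / (8 * C))) :=
    ⟨_, rfl⟩
  have he0 : 0 < e := by
    rw [he]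
    refine lt_min (by norm_num) (lt_min (by positivity) (by positivity))
  have he1 : e ≤ 1 / 2 := by rw [he]; exact min_le_left _ _
  have he2 : e ≤ 1 / (16 * (M + B)) := by
    rw [he]; exact (min_le_right _ _).trans (min_le_left _ _)
  have he3 : e ≤ (lam - rho) / (8 * C) := by
    rw [he]; exact (min_le_right _ _).trans (min_le_right _ _)
  obtain ⟨r, hrdef⟩ : ∃ r : ℝ, r = (2 + K) / e + 2 := ⟨_, rfl⟩
  have hr2 : 2 ≤ r := by
    rw [hrdef]
    have : 0 ≤ (2 + K) / e := by positivity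
    linarith
  obtain ⟨R, hR⟩ : ∃ R : ℝ, R = r ^ 2 + 32 * K ^ 2 * (M + B) + 32 * K ^ 2 * C / (lam - rho) +
      (2 * k + 4 * K ^ 2) + 2 * (2 * k + 4 * K ^ 2) / (lam - rho) := ⟨_, rfl⟩
  refine ⟨B, hB, C, hC0.le, min 1 ((lam - rho) / 4), lt_min one_pos (by linarith), R, ?_, ?_⟩
  · rw [hR]
    have : 4 ≤ r ^ 2 := by nlinarith only [hr2]
    have h1 : 0 ≤ 32 * K ^ 2 * (M + B) := by positivity
    have h2 : 0 ≤ 32 * K ^ 2 * C / (lam - rho) := by positivity
    have h3 : 0 ≤ 2 * (2 * k + 4 * K ^ 2) / (lam - rho) := by positivity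
    have h4 : 0 ≤ (2 * k + 4 * K ^ 2) := by positivity
    linarith
  intro ι _ n w Z dZ dN N L hn hw hNs hRN hL hdN hZ hkZ hZ' hdZ
  have g0 : 0 ≤ 32 * K ^ 2 * (M + B) := by positivity
  have g1 : 0 ≤ 32 * K ^ 2 * C / (lam - rho) := by positivity
  have g2 : 0 ≤ 2 * (2 * k + 4 * K ^ 2) / (lam - rho) := by positivity
  have g3 : 0 ≤ (2 * k + 4 * K ^ 2) := by positivity
  have g4 : 0 ≤ r ^ 2 := by positivity
  have hNr : r ^ 2 ≤ N := by rw [hR] at hRN; linarith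
  have hN1 : 32 * K ^ 2 * (M + B) ≤ N := by rw [hR] at hRN; linarith
  have hN2 : 32 * K ^ 2 * C ≤ N * (lam - rho) := by
    have : 32 * K ^ 2 * C / (lam - rho) ≤ N := by rw [hR] at hRN; linarith
    rwa [div_le_iff₀ hgap] at this
  have hN3 : 2 * k + 4 * K ^ 2 ≤ N := by rw [hR] at hRN; linarith
  have hN4 : 2 * (2 * k + 4 * K ^ 2) ≤ N * (lam - rho) := by
    have : 2 * (2 * k + 4 * K ^ 2) / (lam - rho) ≤ N := by rw [hR] at hRN; linarith
    rwa [div_le_iff₀ hgap] at this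
  have hN2' : 2 ≤ N := by nlinarith only [hr2, hNr]
  have hN0 : 0 < N := by linarith
  obtain ⟨u, hu⟩ : ∃ u : ℝ, u = ‖L‖ ^ 2 / N := ⟨_, rfl⟩
  have hu0 : 0 ≤ u := by rw [hu]; positivity
  have hLu : ‖L‖ ^ 2 = u * N := by rw [hu]; field_simp
  obtain ⟨W, hW⟩ : ∃ W : ℝ, W = ‖L‖ ^ 2 + B * N := ⟨_, rfl⟩
  have hWw : W = N * (u + B) := by rw [hW, hLu]; ring
  have hw0 : 0 < u + B := by linarith
  have hW0 : 0 < W := by rw [hWw]; positivity
  obtain ⟨D, hD⟩ : ∃ D : ℝ, D = (2 * lam * ‖L‖ + K) / W := ⟨_, rfl⟩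
  have hD0 : 0 ≤ D := by rw [hD]; positivity
  -- D is small
  have hDe : D ≤ e := by
    have hrN : r ≤ Real.sqrt N := Real.le_sqrt_of_sq_le hNr
    have hs : Real.sqrt N ^ 2 = N := Real.sq_sqrt hN0.le
    obtain ⟨q, hq⟩ : ∃ q : ℝ, q = Real.sqrt N := ⟨_, rfl⟩
    rw [← hq] at hrN hs
    have hq0 : 0 < q := by linarith
    have h1 : 2 * ‖L‖ * q ≤ W := by
      have : 2 * ‖L‖ * q ≤ ‖L‖ ^ 2 + q ^ 2 := by nlinarith only [sq_nonneg (‖L‖ - q)]
      rw [hs] at this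
      rw [hW]
      nlinarith only [this, mul_le_mul_of_nonneg_right hB hN0.le]
    have h2 : N ≤ W := by
      rw [hW]
      nlinarith only [sq_nonneg ‖L‖, mul_le_mul_of_nonneg_right hB hN0.le]
    rw [hD, div_le_iff₀ hW0]
    have h3 : (2 + K) ≤ e * q := by
      have : (2 + K) / e ≤ q := by rw [hrdef] at hrN; linarith
      rwa [div_le_iff₀ he0, mul_comm] at this
    -- 2 lam ‖L‖ ≤ 4 ‖L‖ ≤ 2 W / q ; K ≤ K W / N ≤ K W / q
    have h4 : 2 * lam * ‖L‖ * q ≤ 2 * W := by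
      have : 2 * lam * ‖L‖ * q = lam * (2 * ‖L‖ * q) := by ring
      rw [this]
      exact mul_le_mul hl2 h1 (by positivity) (by norm_num)
    have h5 : K * q ≤ K * W := by
      apply mul_le_mul_of_nonneg_left _ hK
      have : q ≤ q ^ 2 := by nlinarith only [hrN, hr2]
      rw [hs] at this
      linarith
    have h6 : (2 * lam * ‖L‖ + K) * q ≤ (e * W) * q := by
      calc (2 * lam * ‖L‖ + K) * q ≤ (2 + K) * W := by linarith
        _ ≤ (e * q) * W := mul_le_mul_of_nonneg_right h3 hW0.le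
        _ = _ := by ring
    exact le_of_mul_le_mul_right h6 hq0
  have hDh : D ≤ 1 / 2 := hDe.trans he1
  have hD1 : 16 * (M + B) * D ≤ 1 := by
    have := hDe.trans he2
    rw [le_div_iff₀ (by positivity)] at this
    linarith
  have hD2 : 8 * C * D ≤ lam - rho := by
    have := hDe.trans he3
    rw [le_div_iff₀ (by positivity)] at this
    linarith
  -- the relative increments
  obtain ⟨d, hd⟩ : ∃ d : ι → ℝ, d = fun v => (2 * lam * (L * (starRingEnd ℂ) (w v)).re + lam ^ 2 +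
      B * dN v) / W := ⟨_, rfl⟩
  have hre : ∀ v, |(L * (starRingEnd ℂ) (w v)).re| ≤ ‖L‖ := by
    intro v
    refine (Complex.abs_re_le_norm _).trans ?_
    rw [norm_mul, RCLike.norm_conj, hw v, mul_one]
  have hdD : ∀ v, |d v| ≤ D := by
    intro v
    rw [hd, hD]
    simp only
    rw [abs_div, abs_of_pos hW0]
    apply div_le_div_of_nonneg_right _ hW0.le
    have h1 := abs_le.1 (hre v)
    have h2 := abs_le.1 (hdN v)
    have h3 : lam ^ 2 ≤ 4 := by nlinarith only [hl1, hl2]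
    have h4 : 0 ≤ lam ^ 2 := by positivity
    rw [abs_le, hKdef]
    have h5 : |2 * lam * (L * (starRingEnd ℂ) (w v)).re| ≤ 2 * lam * ‖L‖ := by
      rw [abs_mul, abs_of_pos (by linarith : 0 < 2 * lam)]
      exact mul_le_mul_of_nonneg_left (hre v) (by linarith)
    have h6 := abs_le.1 h5
    have h7 := mul_le_mul_of_nonneg_left h2.1 (by linarith : 0 ≤ B)
    have h8 := mul_le_mul_of_nonneg_left h2.2 (by linarith : 0 ≤ B)
    constructor <;> linarith
  have hWd : ∀ v, ‖L + lam * w v‖ ^ 2 + B * (N + dN v) = W * (1 + d v) := by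
    intro v
    rw [sq_norm_add L (w v) lam (hw v), hd]
    simp only
    have h1 : W * (1 + (2 * lam * (L * (starRingEnd ℂ) (w v)).re + lam ^ 2 + B * dN v) / W) =
        W + (2 * lam * (L * (starRingEnd ℂ) (w v)).re + lam ^ 2 + B * dN v) := by
      rw [mul_add W, mul_one, mul_div_cancel₀ _ hW0.ne']
    rw [h1, hW]
    ring
  -- sums
  have hp : ∑ v, n v / N = 1 := by
    rw [← Finset.sum_div, ← hNs, div_self hN0.ne']
  obtain ⟨nu, hnu⟩ : ∃ nu : ℝ, nu = ∑ v, (n v / N) * dN v := ⟨_, rfl⟩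
  have hp0 : ∀ v, 0 ≤ n v / N := fun v => div_nonneg (hn v) hN0.le
  have hnu2 : |nu| ≤ 2 := by
    rw [hnu]
    refine (Finset.abs_sum_le_sum_abs _ _).trans ?_
    calc ∑ v, |n v / N * dN v| ≤ ∑ v, (n v / N) * 2 := by
          refine Finset.sum_le_sum fun v _ => ?_
          rw [abs_mul, abs_of_nonneg (hp0 v)]
          exact mul_le_mul_of_nonneg_left (hdN v) (hp0 v)
      _ = 2 := by rw [← Finset.sum_mul, hp, one_mul]
  have hsre : ∑ v, (n v / N) * (L * (starRingEnd ℂ) (w v)).re = ‖L‖ ^ 2 / N := by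
    have h1 : ∑ v, n v * (L * (starRingEnd ℂ) (w v)).re = ‖L‖ ^ 2 := by
      have h2 : L * (starRingEnd ℂ) L = ∑ v, (n v : ℂ) * (L * (starRingEnd ℂ) (w v)) := by
        conv_lhs => rw [hL]
        rw [map_sum, Finset.mul_sum, ← hL]
        refine Finset.sum_congr rfl fun v _ => ?_
        rw [map_mul, Complex.conj_ofReal]
        ring
      have h3 := congrArg Complex.re h2
      rw [Complex.mul_conj, Complex.ofReal_re, ← Complex.sq_norm, Complex.re_sum] at h3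
      rw [h3]
      refine Finset.sum_congr rfl fun v _ => ?_
      rw [Complex.re_ofReal_mul]
    rw [← h1, Finset.sum_div]
    refine Finset.sum_congr rfl fun v _ => by ring
  have hsd : ∑ v, (n v / N) * d v = (2 * lam * u + lam ^ 2 + B * nu) / W := by
    have e1 : ∀ v, (n v / N) * d v = (2 * lam * ((n v / N) * (L * (starRingEnd ℂ) (w v)).re) +
        lam ^ 2 * (n v / N) + B * ((n v / N) * dN v)) / W := by
      intro v
      rw [hd]
      simp only
      ring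
    rw [Finset.sum_congr rfl fun v _ => e1 v, ← Finset.sum_div, Finset.sum_add_distrib,
      Finset.sum_add_distrib, ← Finset.mul_sum, ← Finset.mul_sum, ← Finset.mul_sum, hsre, hp,
      ← hnu, hu]
    ring
  -- pointwise
  have hpt : ∀ v, (n v / N) * (Real.log (Z + dZ v) -
      Real.log (‖L + lam * w v‖ ^ 2 + B * (N + dN v)) +
          C * ((N + dN v) / (‖L + lam * w v‖ ^ 2 + B * (N + dN v)))) ≤
      (n v / N) * (Real.log Z - Real.log W + C * (N / W) +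
        (dZ v / Z - d v + 2 * D ^ 2) + (C / W) * (dN v - N * d v + 2 * D + 4 * N * D ^ 2)) := by
    intro v
    rcases (hn v).eq_or_lt with h0 | h0
    · rw [← h0]; simp
    · refine mul_le_mul_of_nonneg_left ?_ (hp0 v)
      exact pointwise hZ (hZ' v h0) hW0 (hWd v) (hdD v) hDh hN2' (hdN v) hC0.le
  refine (Finset.sum_le_sum fun v _ => hpt v).trans ?_
  have e2 : ∑ v, (n v / N) * (Real.log Z - Real.log W + C * (N / W) +
        (dZ v / Z - d v + 2 * D ^ 2) + (C / W) * (dN v - N * d v + 2 * D + 4 * N * D ^ 2)) =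
      Real.log Z - Real.log W + C * (N / W) + ((∑ v, n v * dZ v) / (N * Z) -
        (2 * lam * u + lam ^ 2 + B * nu) / W + 2 * D ^ 2) +
        (C / W) * (nu - N * ((2 * lam * u + lam ^ 2 + B * nu) / W) + 2 * D + 4 * N * D ^ 2) := by
    have e3 : ∀ v, (n v / N) * (Real.log Z - Real.log W + C * (N / W) +
        (dZ v / Z - d v + 2 * D ^ 2) + (C / W) * (dN v - N * d v + 2 * D + 4 * N * D ^ 2)) =
        (Real.log Z - Real.log W + C * (N / W) + 2 * D ^ 2 + (C / W) * (2 * D + 4 * N * D ^ 2)) *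
          (n v / N) + (n v * dZ v) * (1 / (N * Z)) - (n v / N) * d v +
          (C / W) * ((n v / N) * dN v) - (C / W) * N * ((n v / N) * d v) := by
      intro v
      field_simp
      ring
    rw [Finset.sum_congr rfl fun v _ => e3 v, Finset.sum_sub_distrib, Finset.sum_add_distrib,
      Finset.sum_sub_distrib, Finset.sum_add_distrib, ← Finset.mul_sum, hp, ← Finset.sum_mul,
      ← Finset.mul_sum, ← Finset.mul_sum, hsd, ← hnu]
    ring
  rw [e2, ← hW]
  -- reduce to the scalar inequality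
  have hsc := scalar (u := u) (w := u + B) (nu := nu) (q := N) (K := K) (k := k) hl1 hl2 hr hB hBk
    hu0 rfl hnu2 hM hM0 hC hK hk (by linarith) D hD0 hD1 hD2 hN1 hN2 hN3 hN4
  have t1 : (∑ v, n v * dZ v) / (N * Z) ≤ (2 * rho + 2 * k / N) / N := by
    rw [div_le_div_iff₀ (by positivity) hN0]
    have h1 : 2 * N ≤ (2 * k / N) * Z := by
      rw [div_mul_eq_mul_div, le_div_iff₀ hN0]
      nlinarith only [hkZ]
    have h2 : ∑ v, n v * dZ v ≤ (2 * rho + 2 * k / N) * Z := by linarith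
    calc (∑ v, n v * dZ v) * N ≤ ((2 * rho + 2 * k / N) * Z) * N :=
          mul_le_mul_of_nonneg_right h2 hN0.le
      _ = _ := by ring
  have t2 : N * D ^ 2 ≤ (8 * lam ^ 2 * u + 2 * K ^ 2 / N) / (u + B) ^ 2 := by
    rw [le_div_iff₀ (by positivity), hD, div_pow, hWw]
    have h1 : N * ((2 * lam * ‖L‖ + K) ^ 2 / (N * (u + B)) ^ 2) * (u + B) ^ 2 =
        (2 * lam * ‖L‖ + K) ^ 2 / N := by
      field_simp
    rw [h1, div_le_iff₀ hN0, add_mul, div_mul_cancel₀ _ hN0.ne']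
    have h2 : 8 * lam ^ 2 * u * N = 8 * lam ^ 2 * ‖L‖ ^ 2 := by rw [hLu]; ring
    rw [h2]
    nlinarith only [sq_nonneg (2 * lam * ‖L‖ - K)]
  have t3 : 2 * D ^ 2 ≤ ((16 * lam ^ 2 * u + 4 * K ^ 2 / N) / (u + B) ^ 2) / N := by
    rw [le_div_iff₀ hN0]
    calc 2 * D ^ 2 * N = 2 * (N * D ^ 2) := by ring
      _ ≤ 2 * ((8 * lam ^ 2 * u + 2 * K ^ 2 / N) / (u + B) ^ 2) := by linarith
      _ = _ := by ring
  have t4 : 4 * N * D ^ 2 ≤ (32 * lam ^ 2 * u + 8 * K ^ 2 / N) / (u + B) ^ 2 := by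
    calc 4 * N * D ^ 2 = 4 * (N * D ^ 2) := by ring
      _ ≤ 4 * ((8 * lam ^ 2 * u + 2 * K ^ 2 / N) / (u + B) ^ 2) := by linarith
      _ = _ := by ring
  have t5 : nu - N * ((2 * lam * u + lam ^ 2 + B * nu) / W) =
      -((2 * lam - nu) * u + lam ^ 2) / (u + B) := by
    rw [hWw]
    field_simp
    ring
  have t6 : (2 * lam * u + lam ^ 2 + B * nu) / W =
      ((2 * lam * u + lam ^ 2 + B * nu) / (u + B)) / N := by
    rw [hWw]
    field_simp
  have t7 : (C / W) * (nu - N * ((2 * lam * u + lam ^ 2 + B * nu) / W) + 2 * D + 4 * N * D ^ 2) ≤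
      ((C / (u + B)) * (-((2 * lam - nu) * u + lam ^ 2) / (u + B) + 2 * D +
        (32 * lam ^ 2 * u + 8 * K ^ 2 / N) / (u + B) ^ 2)) / N := by
    rw [t5]
    have : C / W = (C / (u + B)) / N := by rw [hWw]; field_simp
    rw [this, div_mul_eq_mul_div]
    apply div_le_div_of_nonneg_right _ hN0.le
    apply mul_le_mul_of_nonneg_left _ (by positivity)
    linarith
  rw [t6] at t7 ⊢
  have hfin := div_le_div_of_nonneg_right hsc hN0.le
  have e5 : (2 * rho + 2 * k / N - (2 * lam * u + lam ^ 2 + B * nu) / (u + B) +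
        (16 * lam ^ 2 * u + 4 * K ^ 2 / N) / (u + B) ^ 2 +
      C / (u + B) *
        (-((2 * lam - nu) * u + lam ^ 2) / (u + B) + 2 * D +
          (32 * lam ^ 2 * u + 8 * K ^ 2 / N) / (u + B) ^ 2)) / N =
      (2 * rho + 2 * k / N) / N - (2 * lam * u + lam ^ 2 + B * nu) / (u + B) / N +
        (16 * lam ^ 2 * u + 4 * K ^ 2 / N) / (u + B) ^ 2 / N +
      (C / (u + B) *
        (-((2 * lam - nu) * u + lam ^ 2) / (u + B) + 2 * D +
          (32 * lam ^ 2 * u + 8 * K ^ 2 / N) / (u + B) ^ 2)) / N := by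
    ring
  rw [e5] at hfin
  have e6 : -min 1 ((lam - rho) / 4) / N = -(min 1 ((lam - rho) / 4) / N) := neg_div _ _
  rw [e6] at hfin
  linarith

end Pool.Agent.V5helper99.Urn.Core
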