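import Pool.Agent.TH996.Urn.Crit

/-!
# A layered Lyapunov criterion for no coexistence
-/

open Finset Filter Topology

namespace Pool.Agent.V5helper99.Urn

open Pool.Agent.TH996.Urn

variable {V : Type} [Fintype V] {s : ℕ}

/-- one round of the iteration, inside a closed class `K`, with the lower layer `A` on which the
limit function vanishes -/
theorem layer_round (G : SimpleGraph V) (hG : G.Connected) (K A : Config V s → Prop)
    (hK : ∀ x, Good x → K x → ∀ v c, 0 < x v c → K (step G x v c))
    (hA : ∀ x, Good x → A x → hlim G x = 0)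
    (f : Config V s → ℝ)
    (hf : ∀ x, 0 ≤ f x) (c : ℝ) (hc : 0 < c) (N₀ : ℕ)
    (h : ∀ x : Config V s, Good x → K x → ¬ A x → N₀ ≤ total x →
      Pop G f x ≤ f x - c / (total x : ℝ)) :
    ∃ δ : ℝ, 0 < δ ∧ δ < 1 ∧ ∀ M : ℝ, 0 ≤ M →
      (∀ x : Config V s, Good x → K x → hlim G x ≤ M) →
      ∀ x : Config V s, Good x → K x → hlim G x ≤ (1 - δ) * M := by
  classical
  obtain ⟨δ, hδ, hδ1, T, hT⟩ := small_N (s := s) G hG N₀
  refine ⟨δ, hδ, hδ1, fun M hM0 hM x hx hKx => ?_⟩
  have hδM : 0 ≤ (1 - δ) * M := mul_nonneg (by linarith) hM0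
  have hM' : ∀ x : Config V s, Good x → K x → hlim G x ≤ M * nm x := by
    intro x hx hKx
    by_cases ha : AllMono x
    · rw [crit_hlim_mono G ha]
      exact mul_nonneg hM0 (nm_nonneg x)
    · unfold nm
      rw [if_neg ha, mul_one]
      exact hM x hx hKx
  have hsmall : ∀ x : Config V s, Good x → K x → total x ≤ N₀ → hlim G x ≤ (1 - δ) * M := by
    intro x hx hKx hN
    have h1 := hlim_le_iter G K hK hM' T x hx hKx
    have h2 := hT x hx.1 hx.2 hN
    nlinarith
  have main : ∀ t : ℕ, ∀ x : Config V s, Good x → K x →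
      (hlim G x - (1 - δ) * M) * critS c (Fintype.card V) t (total x) ≤ M * f x := by
    intro t
    induction t with
    | zero =>
      intro x _ _
      have : critS c (Fintype.card V) 0 (total x) = 0 := by simp [critS]
      rw [this, mul_zero]
      exact mul_nonneg hM0 (hf _)
    | succ t ih =>
      intro x hx hKx
      have hrhs : 0 ≤ M * f x := mul_nonneg hM0 (hf _)
      have hSn := critS_nonneg hc.le (Fintype.card V) (t + 1) (total x)
      by_cases ha : A x
      · rw [hA x hx ha]
        nlinarith
      rcases Nat.lt_or_ge N₀ (total x) with hN | hN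
      swap
      · have := hsmall x hx hKx hN
        nlinarith
      have hNpos : 0 < total x := hx.2
      rw [critS_succ]
      set w : Config V s → ℝ := fun y => hlim G y - (1 - δ) * M with hw
      have hw1 : w x ≤ M := by
        have h1 := hM x hx hKx
        simp only [hw]; linarith
      have hwP : Pop G w x = w x := by
        have h1 := hlim_harmonic G hx
        have h2 := Pop_const G ((1 - δ) * M) hx.2
        unfold Pop at h1 h2 ⊢
        simp only [hw, mul_sub, Finset.sum_sub_distrib]
        rw [h1, h2]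
      have hdr := h x hx hKx ha hN.le
      have hterm : Pop G (fun y => w y * critS c (Fintype.card V) t
          (total x + Fintype.card V)) x ≤ Pop G (fun y => M * f y) x := by
        refine Pop_le G (fun v c' h0 => ?_)
        have hgood := step_good G hx h0
        have h6 := ih _ hgood (hK x hx hKx v c' h0)
        have hr : 0 ≤ M * f (step G x v c') := mul_nonneg hM0 (hf _)
        have hSn' := critS_nonneg hc.le (Fintype.card V) t (total x + Fintype.card V)
        rcases le_or_gt (w (step G x v c')) 0 with hwn | hwp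
        · nlinarith
        · refine le_trans ?_ h6
          apply mul_le_mul_of_nonneg_left _ hwp.le
          exact critS_anti hc.le _ t (small_total_step G x v c') hgood.2
      have hcomm : Pop G (fun y => w y * critS c (Fintype.card V) t
          (total x + Fintype.card V)) x = w x * critS c (Fintype.card V) t
          (total x + Fintype.card V) := by
        have h7 := Pop_mul G (critS c (Fintype.card V) t (total x + Fintype.card V)) w x
        rw [hwP, mul_comm] at h7
        rw [← h7]
        congr 1
        funext y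
        ring
      rw [hcomm, Pop_mul] at hterm
      have hNr : (0 : ℝ) < total x := by exact_mod_cast hNpos
      have hcN : 0 < c / (total x : ℝ) := by positivity
      have e1 : w x * (c / (total x : ℝ)) ≤ M * (c / (total x : ℝ)) :=
        mul_le_mul_of_nonneg_right hw1 hcN.le
      have e2 : M * Pop G f x ≤ M * (f x - c / (total x : ℝ)) :=
        mul_le_mul_of_nonneg_left hdr hM0
      show w x * (c / (total x : ℝ) + critS c (Fintype.card V) t
        (total x + Fintype.card V)) ≤ _
      nlinarith
  by_contra hcon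
  push Not at hcon
  have hpos : 0 < hlim G x - (1 - δ) * M := by linarith
  have ht := (critS_tendsto hc (Fintype.card V) hx.2).const_mul_atTop hpos
  have hev := (tendsto_atTop.1 ht) (M * f x + 1)
  obtain ⟨t, hev⟩ := hev.exists
  have := main t x hx hKx
  linarith

/-- the limit function vanishes on the closed class -/
theorem layer_zero (G : SimpleGraph V) (hG : G.Connected) (K A : Config V s → Prop)
    (hK : ∀ x, Good x → K x → ∀ v c, 0 < x v c → K (step G x v c))
    (hA : ∀ x, Good x → A x → hlim G x = 0)
    (f : Config V s → ℝ)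
    (hf : ∀ x, 0 ≤ f x) (c : ℝ) (hc : 0 < c) (N₀ : ℕ)
    (h : ∀ x : Config V s, Good x → K x → ¬ A x → N₀ ≤ total x →
      Pop G f x ≤ f x - c / (total x : ℝ)) :
    ∀ x, Good x → K x → hlim G x = 0 := by
  obtain ⟨δ, hδ, hδ1, hround⟩ := layer_round G hG K A hK hA f hf c hc N₀ h
  have key : ∀ j : ℕ, ∀ x : Config V s, Good x → K x → hlim G x ≤ (1 - δ) ^ j := by
    intro j
    induction j with
    | zero =>
      intro x _ _
      rw [pow_zero]
      exact (hlim_le_nm _ x).trans (nm_le_one x)
    | succ j ihj =>
      intro x hx hKx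
      rw [pow_succ, mul_comm]
      exact hround ((1 - δ) ^ j) (pow_nonneg (by linarith) j) ihj x hx hKx
  intro x hx hKx
  have h1 : Tendsto (fun j : ℕ => (1 - δ) ^ j) atTop (𝓝 0) :=
    tendsto_pow_atTop_nhds_zero_of_lt_one (by linarith) (by linarith)
  exact le_antisymm (ge_of_tendsto' h1 (fun j => key j x hx hKx)) (hlim_nonneg _ x)

/-- **Layered criterion.** -/
theorem layered_criterion (G : SimpleGraph V) (hG : G.Connected) (r : Config V s → ℕ)
    (hr : ∀ x, Good x → ∀ v c, 0 < x v c → r (step G x v c) ≤ r x)
    (h0 : ∀ x, Good x → r x = 0 → AllMono x)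
    (hm : ∀ m, 0 < m → ∃ f : Config V s → ℝ, (∀ x, 0 ≤ f x) ∧ ∃ c : ℝ, 0 < c ∧ ∃ N₀ : ℕ,
      ∀ x, Good x → r x = m → N₀ ≤ total x → Pop G f x ≤ f x - c / (total x : ℝ)) :
    InClass G s := by
  have key : ∀ m, ∀ x, Good x → r x ≤ m → hlim G x = 0 := by
    intro m
    induction m with
    | zero =>
      intro x hx hxm
      exact crit_hlim_mono G (h0 x hx (by omega))
    | succ m ih =>
      obtain ⟨f, hf, c, hc, N₀, h⟩ := hm (m + 1) (Nat.succ_pos m)
      refine layer_zero G hG (fun x => r x ≤ m + 1) (fun x => r x ≤ m)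
        (fun x hx hxm v c hv => (hr x hx v c hv).trans hxm) ih f hf c hc N₀ ?_
      intro x hx hxm hxm' hN
      exact h x hx (by omega) hN
  intro x₀ hx₀ ht Ω _ P _ X hX
  have h3 : hlim G x₀ = 0 := key (r x₀) x₀ ⟨hx₀, ht⟩ le_rfl
  have h2 := hlim_tendsto G (x := x₀) ⟨hx₀, ht⟩
  rw [h3] at h2
  exact wrap _ x₀ hx₀ ht h2 P X hX

end Pool.Agent.V5helper99.Urn
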