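import Pool.Agent.V5helper99.Urn.Quad
import Pool.Agent.V5helper99.Urn.Drift
import Pool.Agent.V5helper99.Urn.Layer

/-!
# Cycles have no coexistence
-/

open Finset

namespace Pool.Agent.V5helper99.Urn.Cyc

open Pool.Agent.TH996.Urn

variable {n s : ℕ}

theorem eta_even {m : ℕ} (h : Even m) : eta n m = 1 := by unfold eta; rw [if_pos h]

theorem eta_odd_re {m : ℕ} (h : ¬ Even m) :
    (eta n m).re = Real.cos (Real.pi / ((n : ℝ) + 3)) := by
  unfold eta
  rw [if_neg h, Complex.exp_ofReal_mul_I_re]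

theorem cos_lt {a b : ℝ} (ha : 1 ≤ a) (hab : a < b) :
    Real.cos (Real.pi / a) < Real.cos (Real.pi / b) := by
  have ha0 : 0 < a := by linarith
  have hb0 : 0 < b := by linarith
  apply Real.cos_lt_cos_of_nonneg_of_le_pi
  · positivity
  · exact div_le_self Real.pi_pos.le ha
  · exact div_lt_div_of_pos_left Real.pi_pos ha0 hab

/-- the constants of the layer `m` -/
theorem constants (hn : 1 ≤ n) {m : ℕ} (hm : 2 ≤ m) :
    ∃ lam rho : ℝ, 1 < lam ∧ lam ≤ 2 ∧ rho < lam ∧
      eta n m + (starRingEnd ℂ) (eta n m) = (lam : ℂ) ∧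
      ∀ {s : ℕ} {a : Fin (n + 3) → ℝ} (_ : ∀ v, 0 ≤ a v) (χ : Fin (n + 3) → Fin s)
        (_ : chg χ = m), 2 * ∑ v, sr (χ v) (χ (v + 1)) * (a v * a (v + 1)) ≤
          rho * ∑ v, a v ^ 2 := by
  have hn' : (1 : ℝ) ≤ n := by exact_mod_cast hn
  by_cases h : Even m
  · refine ⟨2, 2 * Real.cos (Real.pi / ((n : ℝ) + 4)), by norm_num, le_rfl, ?_, ?_, ?_⟩
    · have h1 : Real.cos (Real.pi / ((n : ℝ) + 4)) < Real.cos 0 := by
        apply Real.cos_lt_cos_of_nonneg_of_le_pi le_rfl
        · exact div_le_self Real.pi_pos.le (by linarith)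
        · positivity
      rw [Real.cos_zero] at h1
      linarith
    · rw [eta_even h]
      norm_num
    · intro s a ha χ hχ
      exact quad_one ha χ (by omega)
  · have hm3 : 3 ≤ m := by
      rcases Nat.lt_or_ge m 3 with h1 | h1
      · have : m = 2 := by omega
        rw [this] at h
        exact absurd (by decide) h
      · exact h1
    refine ⟨2 * Real.cos (Real.pi / ((n : ℝ) + 3)), 2 * Real.cos (Real.pi / ((n : ℝ) + 2)),
      ?_, ?_, ?_, ?_, ?_⟩
    · have h1 := cos_lt (a := 3) (b := (n : ℝ) + 3) (by norm_num) (by linarith)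
      rw [Real.cos_pi_div_three] at h1
      linarith
    · have := Real.cos_le_one (Real.pi / ((n : ℝ) + 3))
      linarith
    · have := cos_lt (a := (n : ℝ) + 2) (b := (n : ℝ) + 3) (by linarith) (by linarith)
      linarith
    · rw [Complex.add_conj, eta_odd_re h]
    · intro s a ha χ hχ
      exact quad_three ha χ (by omega)

/-- the Lyapunov function of a lift -/
noncomputable def FF (B C D : ℝ) (x : Config (Fin (n + 3)) s) (w : Fin (n + 3) → ℂ) : ℝ :=
  Real.log (zz x) - Real.log (‖lf x w‖ ^ 2 + B * total x) +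
    C * (total x / (‖lf x w‖ ^ 2 + B * total x)) + D

theorem zz_ge (x : Config (Fin (n + 3)) s) : (total x : ℝ) ^ 2 ≤ ((n : ℝ) + 3) * zz x := by
  have h := sq_sum_le_card_mul_sum_sq (s := (univ : Finset (Fin (n + 3))))
    (f := fun u => (mm x u : ℝ))
  rw [card_univ, Fintype.card_fin] at h
  rw [total_eq]
  unfold zz
  push_cast at h ⊢
  exact h

theorem lf_le (x : Config (Fin (n + 3)) s) {w : Fin (n + 3) → ℂ} (hw : ∀ v, ‖w v‖ = 1) :
    ‖lf x w‖ ≤ total x := by
  unfold lf
  refine (norm_sum_le _ _).trans ?_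
  rw [total_eq]
  push_cast
  refine sum_le_sum fun v _ => ?_
  rw [norm_mul, hw v, mul_one, Complex.norm_natCast]

/-- nonnegativity -/
theorem nonneg_aux {B C k N' Z' W' : ℝ} (hC : 0 ≤ C) (hB : 1 ≤ B) (hk : 0 < k) (hN : 0 < N')
    (hZ : N' ^ 2 ≤ k * Z') (hW0 : 0 < W') (hW : W' ≤ 4 * ((1 + B) * N' ^ 2)) :
    0 ≤ Real.log Z' - Real.log W' + C * (N' / W') + Real.log (4 * (1 + B) * k) := by
  have hZ0 : 0 < Z' := by
    by_contra h
    push Not at h
    have := mul_nonpos_of_nonneg_of_nonpos hk.le h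
    nlinarith
  have h1 : W' ≤ (4 * (1 + B) * k) * Z' := by
    have := mul_le_mul_of_nonneg_left hZ (show 0 ≤ 4 * (1 + B) by linarith)
    linarith
  have h2 : Real.log W' ≤ Real.log (4 * (1 + B) * k) + Real.log Z' := by
    rw [← Real.log_mul (by positivity) hZ0.ne']
    exact Real.log_le_log hW0 h1
  have h3 : 0 ≤ C * (N' / W') := by positivity
  linarith

theorem FF_nonneg {B C : ℝ} (hC : 0 ≤ C) (hB : 1 ≤ B) {x : Config (Fin (n + 3)) s}
    (hx : 0 < total x) {w : Fin (n + 3) → ℂ} (hw : ∀ v, ‖w v‖ = 1) :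
    0 ≤ FF B C (Real.log (4 * (1 + B) * ((n : ℝ) + 3))) x w := by
  have hN : (1 : ℝ) ≤ total x := by exact_mod_cast hx
  have hL := lf_le x hw
  have hL2 : ‖lf x w‖ ^ 2 ≤ (total x : ℝ) ^ 2 := pow_le_pow_left₀ (norm_nonneg _) hL 2
  refine nonneg_aux hC hB (by positivity) (by linarith) (zz_ge x) (by positivity) ?_
  have h1 : (total x : ℝ) ≤ (total x : ℝ) ^ 2 := by nlinarith
  have h2 : B * (total x : ℝ) ≤ B * (total x : ℝ) ^ 2 :=
    mul_le_mul_of_nonneg_left h1 (by linarith)
  have h3 : 0 ≤ B * (total x : ℝ) ^ 2 := mul_nonneg (by linarith) (sq_nonneg _)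
  nlinarith only [h2, h3, hL2, sq_nonneg (total x : ℝ)]

open Classical in
/-- the Lyapunov function of the layer `m` -/
noncomputable def fm (n s m : ℕ) (B C D : ℝ) (x : Config (Fin (n + 3)) s) : ℝ :=
  if rk x = m ∧ 0 < total x then
    sInf {t | ∃ χ w, Ext x χ ∧ chg χ = m ∧ Lift (eta n m) χ w ∧ t = FF B C D x w} else 0

theorem layer_drift (hn : 1 ≤ n) {m : ℕ} (hm : 2 ≤ m) :
    ∃ f : Config (Fin (n + 3)) s → ℝ, (∀ x, 0 ≤ f x) ∧ ∃ c : ℝ, 0 < c ∧ ∃ N₀ : ℕ,
      ∀ x, Good x → rk x = m → N₀ ≤ total x →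
        Pop (SimpleGraph.cycleGraph (n + 3)) f x ≤ f x - c / (total x : ℝ) := by
  classical
  obtain ⟨lam, rho, hl1, hl2, hr, heta, hquad⟩ := constants hn hm
  obtain ⟨B, hB, C, hC, c, hc, R, hR, hdrift⟩ := Core.drift lam rho ((n : ℝ) + 3) hl1 hl2 hr
    (by positivity)
  obtain ⟨D, hD⟩ : ∃ D, D = Real.log (4 * (1 + B) * ((n : ℝ) + 3)) := ⟨_, rfl⟩
  have hη := eta_norm n m
  have hbdd : ∀ x : Config (Fin (n + 3)) s, 0 < total x → ∀ t ∈ {t | ∃ χ w, Ext x χ ∧ chg χ = m ∧
      Lift (eta n m) χ w ∧ t = FF B C D x w}, 0 ≤ t := by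
    rintro x hx t ⟨χ, w, -, -, hw, rfl⟩
    rw [hD]
    exact FF_nonneg hC hB hx hw.unit
  refine ⟨fm n s m B C D, ?_, c, hc, max ⌈R⌉₊ 6, ?_⟩
  · intro x
    unfold fm
    split_ifs with h
    · exact Real.sInf_nonneg (hbdd x h.2)
    · exact le_rfl
  intro x hx hrk hN
  have hxpos : 0 < total x := hx.2
  have hNR : R ≤ (total x : ℝ) := by
    have h1 : ⌈R⌉₊ ≤ total x := (le_max_left _ _).trans hN
    exact (Nat.le_ceil R).trans (by exact_mod_cast h1)
  have hN6 : (6 : ℝ) ≤ (total x : ℝ) := by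
    have h1 : 6 ≤ total x := (le_max_right _ _).trans hN
    exact_mod_cast h1
  have hfx : fm n s m B C D x = sInf {t | ∃ χ w, Ext x χ ∧ chg χ = m ∧
      Lift (eta n m) χ w ∧ t = FF B C D x w} := by
    unfold fm
    rw [if_pos ⟨hrk, hxpos⟩]
  have hne : {t | ∃ χ w, Ext x χ ∧ chg χ = m ∧
      Lift (eta n m) χ w ∧ t = FF B C D x w}.Nonempty := by
    obtain ⟨χ, hχ, hcr⟩ := rk_att hx
    obtain ⟨w, hw⟩ := exists_lift χ
    rw [hcr, hrk] at hw
    exact ⟨_, χ, w, hχ, by rw [hcr, hrk], hw, rfl⟩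
  have key : Pop (SimpleGraph.cycleGraph (n + 3)) (fm n s m B C D) x + c / (total x : ℝ) ≤
      fm n s m B C D x := by
    rw [hfx]
    refine le_csInf hne ?_
    rintro t ⟨χ, w, hχ, hcm, hw, rfl⟩
    -- abbreviations
    obtain ⟨N, hNdef⟩ : ∃ N : ℝ, N = (total x : ℝ) := ⟨_, rfl⟩
    obtain ⟨L, hLdef⟩ : ∃ L : ℂ, L = lf x w := ⟨_, rfl⟩
    obtain ⟨Z, hZdef⟩ : ∃ Z : ℝ, Z = zz x := ⟨_, rfl⟩
    obtain ⟨dZ, hdZ⟩ : ∃ dZ : Fin (n + 3) → ℝ, dZ = fun v =>
      (2 * sr (χ v) (χ (v + 1)) * mm x (v + 1) + 1) +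
        (2 * sr (χ v) (χ (v - 1)) * mm x (v - 1) + 1) := ⟨_, rfl⟩
    obtain ⟨dN, hdN⟩ : ∃ dN : Fin (n + 3) → ℝ, dN = fun v =>
      inc x χ v (v + 1) + inc x χ v (v - 1) := ⟨_, rfl⟩
    have hdN2 : ∀ v, |dN v| ≤ 2 := by
      intro v
      rw [hdN]
      refine (abs_add_le _ _).trans ?_
      have h1 := inc_abs (x := x) (χ := χ) v (v + 1)
      have h2 := inc_abs (x := x) (χ := χ) v (v - 1)
      linarith
    obtain ⟨Fv, hFv⟩ : ∃ Fv : Fin (n + 3) → ℝ, Fv = fun v =>
      (Real.log (Z + dZ v) - Real.log (‖L + lam * w v‖ ^ 2 + B * (N + dN v)) +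
          C * ((N + dN v) / (‖L + lam * w v‖ ^ 2 + B * (N + dN v)))) := ⟨_, rfl⟩
    have hLN : ‖L‖ ≤ N := by rw [hLdef, hNdef]; exact lf_le x hw.unit
    have hzero : ∀ v, 0 < mm x v → 0 < x v (χ v) := by
      intro v hv
      rw [hχ.form v (χ v), if_pos rfl]
      exact hv
    have hstepZ : ∀ v, zz (step (SimpleGraph.cycleGraph (n + 3)) x v (χ v)) = Z + dZ v := by
      intro v
      rw [zz_step hχ rfl, hZdef, hdZ]
    have hstepN : ∀ v, (total (step (SimpleGraph.cycleGraph (n + 3)) x v (χ v)) : ℝ) =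
        N + dN v := by
      intro v
      rw [total_step hχ rfl, hNdef, hdN]
    have hN0 : 0 < N := by rw [hNdef]; linarith
    have hN6' : 6 ≤ N := by rw [hNdef]; exact hN6
    have hZ' : ∀ v, 0 < Z + dZ v := by
      intro v
      have h1 := zz_ge (step (SimpleGraph.cycleGraph (n + 3)) x v (χ v))
      rw [hstepZ, hstepN] at h1
      have h2 := (abs_le.1 (hdN2 v)).1
      by_contra hc
      push Not at hc
      have h3 : ((n : ℝ) + 3) * (Z + dZ v) ≤ 0 :=
        mul_nonpos_of_nonneg_of_nonpos (by positivity) hc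
      nlinarith
    -- the value after a step
    have hval : ∀ v, 0 < mm x v →
        fm n s m B C D (step (SimpleGraph.cycleGraph (n + 3)) x v (χ v)) ≤ Fv v + D := by
      intro v hv
      have hxv := hzero v hv
      have hgood := step_good (SimpleGraph.cycleGraph (n + 3)) hx hxv
      unfold fm
      split_ifs with h
      · obtain ⟨hrk', hpos'⟩ := h
        refine csInf_le ⟨0, fun t ht => hbdd _ hpos' t ht⟩ ?_
        have h1 : rk (step (SimpleGraph.cycleGraph (n + 3)) x v (χ v)) ≤ chg (chiN x χ v) :=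
          rk_le (ext_next hχ rfl)
        have h2 := chg_chiN (x := x) (χ := χ) v
        have h3 : chg (chiN x χ v) = chg χ := by omega
        refine ⟨chiN x χ v, wN x (eta n m) w v, ext_next hχ rfl, by omega, liftN hη hw v h3, ?_⟩
        unfold FF
        rw [lf_step hη hw hχ rfl, heta, hstepZ, hstepN, hFv, hLdef]
      · have h1 := (abs_le.1 (hdN2 v)).1
        have h2 := (abs_le.1 (hdN2 v)).2
        have h3 : ‖L + lam * w v‖ ≤ N + 2 := by
          refine (norm_add_le _ _).trans ?_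
          rw [norm_mul, hw.unit v, mul_one, Complex.norm_real, Real.norm_eq_abs,
            abs_of_pos (by linarith)]
          linarith
        have h4 : ‖L + lam * w v‖ ^ 2 ≤ (N + 2) ^ 2 := pow_le_pow_left₀ (norm_nonneg _) h3 2
        have hW0 : 0 < ‖L + lam * w v‖ ^ 2 + B * (N + dN v) := by
          have : 0 < B * (N + dN v) := mul_pos (by linarith) (by linarith)
          positivity
        rw [hFv, hD]
        refine nonneg_aux hC hB (by positivity) (by linarith) ?_ hW0 ?_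
        · have h5 := zz_ge (step (SimpleGraph.cycleGraph (n + 3)) x v (χ v))
          rwa [hstepZ, hstepN] at h5
        · have h6 : (N + 2) ^ 2 ≤ 4 * (N + dN v) ^ 2 := by nlinarith
          have h7 : B * (N + dN v) ≤ B * (N + dN v) ^ 2 := by
            apply mul_le_mul_of_nonneg_left _ (by linarith)
            nlinarith
          nlinarith [sq_nonneg (N + dN v)]
    have hPop : Pop (SimpleGraph.cycleGraph (n + 3)) (fm n s m B C D) x ≤
        ∑ v, ((mm x v : ℝ) / N) * (Fv v) + D := by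
      have e1 : ∑ v, ((mm x v : ℝ) / N) * (Fv v) + D =
          ∑ v, ((mm x v : ℝ) / N) * (Fv v + D) := by
        simp only [mul_add, sum_add_distrib]
        congr 1
        rw [← sum_mul, ← sum_div]
        have : ∑ v, (mm x v : ℝ) = N := by
          rw [hNdef, total_eq]; push_cast; rfl
        rw [this, div_self hN0.ne', one_mul]
      rw [e1]
      unfold Pop
      refine sum_le_sum fun v _ => ?_
      have e2 : ∑ d, (x v d : ℝ) / (total x : ℝ) *
          fm n s m B C D (step (SimpleGraph.cycleGraph (n + 3)) x v d) =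
          (mm x v : ℝ) / N * fm n s m B C D (step (SimpleGraph.cycleGraph (n + 3)) x v (χ v)) := by
        rw [sum_eq_single (χ v)]
        · rw [hχ.form v (χ v), if_pos rfl, hNdef]
        · intro d _ hd
          rw [hχ.form v d, if_neg hd]
          simp
        · intro h
          exact absurd (mem_univ _) h
      rw [e2]
      rcases Nat.eq_zero_or_pos (mm x v) with h0 | h0
      · rw [h0]; simp
      · exact mul_le_mul_of_nonneg_left (hval v h0) (by positivity)
    have hZpos : 0 < Z := by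
      have h1 := zz_ge x
      rw [← hZdef, ← hNdef] at h1
      by_contra hc
      push Not at hc
      have h3 : ((n : ℝ) + 3) * Z ≤ 0 := mul_nonpos_of_nonneg_of_nonpos (by positivity) hc
      nlinarith
    have hmain := hdrift (fun v => (mm x v : ℝ)) w Z dZ dN N L (fun v => Nat.cast_nonneg _)
      hw.unit (by rw [hNdef, total_eq]; push_cast; rfl) (by rw [hNdef]; exact hNR)
      (by rw [hLdef]; unfold lf; push_cast; rfl) hdN2 hZpos
      (by rw [hNdef, hZdef]; exact zz_ge x) (fun v _ => hZ' v)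
      (by
        rw [hdZ, sum_dz (fun v => (mm x v : ℝ)) χ]
        have h1 := hquad (a := fun v => (mm x v : ℝ)) (fun v => Nat.cast_nonneg _) χ hcm
        have h2 : ∑ v, (mm x v : ℝ) = N := by rw [hNdef, total_eq]; push_cast; rfl
        have h3 : ∑ v, (mm x v : ℝ) ^ 2 = Z := by rw [hZdef]; rfl
        rw [h2]
        rw [h3] at h1
        linarith)
    have hFF : FF B C D x w = Real.log Z - Real.log (‖L‖ ^ 2 + B * N) +
        C * (N / (‖L‖ ^ 2 + B * N)) + D := by
      unfold FF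
      rw [hZdef, hLdef, hNdef]
    have hPop' : Pop (SimpleGraph.cycleGraph (n + 3)) (fm n s m B C D) x ≤
        Real.log Z - Real.log (‖L‖ ^ 2 + B * N) + C * (N / (‖L‖ ^ 2 + B * N)) - c / N + D := by
      refine hPop.trans ?_
      rw [hFv]
      linarith
    rw [hFF, ← hNdef]
    linarith
  linarith

/-- **Cycles of length at least four.** -/
theorem cycle_inClass (hn : 1 ≤ n) (s : ℕ) :
    InClass (SimpleGraph.cycleGraph (n + 3)) s := by
  refine layered_criterion _ SimpleGraph.cycleGraph_connected rk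
    (fun x hx v c hv => rk_step hx hv) (fun x hx h => allMono_of_rk hx h) ?_
  intro m hm
  rcases Nat.lt_or_ge m 2 with h | h
  · have hm1 : m = 1 := by omega
    refine ⟨fun _ => 0, fun _ => le_rfl, 1, one_pos, 0, ?_⟩
    intro x hx hrk _
    obtain ⟨χ, -, hχ⟩ := rk_att hx
    rw [hrk, hm1] at hχ
    exact absurd hχ (rk_ne_one χ)
  · exact layer_drift hn h

end Pool.Agent.V5helper99.Urn.Cyc
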