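import Pool.Agent.TH996.Urn.Basic

/-!
# Signed (twisted) lifts of configurations on a cycle
-/

open Finset

namespace Pool.Agent.V5helper99.Urn.Cyc

open Pool.Agent.TH996.Urn

variable {n s : ℕ}

/-- `χ` extends the colouring of the nonempty urns -/
def Ext (x : Config (Fin (n + 3)) s) (χ : Fin (n + 3) → Fin s) : Prop :=
  ∀ v c, 0 < x v c → χ v = c

def ch (a b : Fin s) : ℕ := if a = b then 0 else 1

noncomputable def sg (a b : Fin s) : ℂ := if a = b then 1 else -1

theorem sg_eq (a b : Fin s) : sg a b = (-1) ^ ch a b := by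
  unfold sg ch
  split_ifs <;> simp

theorem sg_comm (a b : Fin s) : sg a b = sg b a := by
  unfold sg
  by_cases h : a = b
  · rw [if_pos h, if_pos h.symm]
  · rw [if_neg h, if_neg (fun h' => h h'.symm)]

theorem sg_self (a : Fin s) : sg a a = 1 := by simp [sg]

theorem sg_mul_self (a b : Fin s) : sg a b * sg a b = 1 := by
  unfold sg
  split_ifs <;> norm_num

theorem ch_self (a : Fin s) : ch a a = 0 := by simp [ch]

theorem ch_comm (a b : Fin s) : ch a b = ch b a := by
  unfold ch
  by_cases h : a = b
  · rw [if_pos h, if_pos h.symm]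
  · rw [if_neg h, if_neg (fun h' => h h'.symm)]

theorem ch_tri (a b c : Fin s) : ch a c ≤ ch a b + ch b c := by
  unfold ch
  by_cases h1 : a = b
  · by_cases h2 : b = c
    · simp [h1, h2]
    · simp [h1]
  · simp only [h1, if_false]
    split_ifs <;> omega

/-- number of colour changes around the cycle -/
def chg (χ : Fin (n + 3) → Fin s) : ℕ := ∑ v, ch (χ v) (χ (v + 1))

/-- the rank: the smallest number of colour changes of an extension -/
noncomputable def rk (x : Config (Fin (n + 3)) s) : ℕ := sInf {m | ∃ χ, Ext x χ ∧ chg χ = m}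

theorem one_ne (n : ℕ) : (1 : Fin (n + 3)) ≠ 0 := by
  intro h
  have := congrArg Fin.val h
  simp at this

theorem two_ne (n : ℕ) : (1 : Fin (n + 3)) + 1 ≠ 0 := by
  intro h
  have := congrArg Fin.val h
  rw [Fin.val_add] at this
  simp only [Fin.val_one, Fin.val_zero] at this
  have h2 : (1 + 1) % (n + 3) = 2 := Nat.mod_eq_of_lt (by omega)
  omega

theorem succ_ne (v : Fin (n + 3)) : v + 1 ≠ v := by
  intro h
  have h2 : v + 1 = v + 0 := by rw [h, add_zero]
  exact one_ne n (add_left_cancel h2)

theorem pred_ne (v : Fin (n + 3)) : v - 1 ≠ v := by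
  intro h
  have h2 : v - 1 + 1 = v + 1 := by rw [h]
  rw [sub_add_cancel] at h2
  exact succ_ne v h2.symm

theorem succ_ne_pred (v : Fin (n + 3)) : v + 1 ≠ v - 1 := by
  intro h
  apply two_ne n
  have h2 : v + 1 + 1 = v := by rw [h, sub_add_cancel]
  have h3 : v + (1 + 1) = v + 0 := by rw [← add_assoc, h2, add_zero]
  exact add_left_cancel h3

/-- splitting the number of changes at a vertex -/
theorem chg_split (χ : Fin (n + 3) → Fin s) (u : Fin (n + 3)) :
    chg χ = ch (χ (u - 1)) (χ u) + ch (χ u) (χ (u + 1)) +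
      ∑ v ∈ (univ.erase u).erase (u - 1), ch (χ v) (χ (v + 1)) := by
  unfold chg
  rw [← add_sum_erase univ _ (mem_univ u), ← add_sum_erase (univ.erase u) _
    (mem_erase.2 ⟨pred_ne u, mem_univ _⟩), sub_add_cancel]
  ring

theorem chg_update (χ : Fin (n + 3) → Fin s) (u : Fin (n + 3)) (c : Fin s) :
    chg (Function.update χ u c) + ch (χ (u - 1)) (χ u) + ch (χ u) (χ (u + 1)) =
      chg χ + ch (χ (u - 1)) c + ch c (χ (u + 1)) := by
  have h1 := chg_split χ u
  have h2 := chg_split (Function.update χ u c) u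
  rw [Function.update_self, Function.update_of_ne (pred_ne u), Function.update_of_ne (succ_ne u)]
    at h2
  have h3 : ∑ v ∈ (univ.erase u).erase (u - 1),
      ch (Function.update χ u c v) (Function.update χ u c (v + 1)) =
      ∑ v ∈ (univ.erase u).erase (u - 1), ch (χ v) (χ (v + 1)) := by
    refine sum_congr rfl fun v hv => ?_
    rw [mem_erase, mem_erase] at hv
    obtain ⟨hv1, hv2, -⟩ := hv
    rw [Function.update_of_ne hv2, Function.update_of_ne]
    intro h
    apply hv1
    rw [← h, add_sub_cancel_right]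
  rw [h3] at h2
  omega

theorem chg_update_left (χ : Fin (n + 3) → Fin s) (u : Fin (n + 3)) :
    chg (Function.update χ u (χ (u - 1))) ≤ chg χ := by
  have h := chg_update χ u (χ (u - 1))
  rw [ch_self] at h
  have := ch_tri (χ (u - 1)) (χ u) (χ (u + 1))
  omega

theorem chg_update_right (χ : Fin (n + 3) → Fin s) (u : Fin (n + 3)) :
    chg (Function.update χ u (χ (u + 1))) ≤ chg χ := by
  have h := chg_update χ u (χ (u + 1))
  rw [ch_self] at h
  have := ch_tri (χ (u - 1)) (χ u) (χ (u + 1))
  omega

/-- a lift: unit complex numbers, turning by `η`, with a sign at every colour change -/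
structure Lift (η : ℂ) (χ : Fin (n + 3) → Fin s) (w : Fin (n + 3) → ℂ) : Prop where
  unit : ∀ v, ‖w v‖ = 1
  link : ∀ v, w (v + 1) = sg (χ v) (χ (v + 1)) * (η * w v)

theorem conj_mul_self' {η : ℂ} (h : ‖η‖ = 1) : (starRingEnd ℂ) η * η = 1 := by
  rw [mul_comm, Complex.mul_conj, ← Complex.sq_norm, h]
  norm_num

theorem Lift.back {η : ℂ} (hη : ‖η‖ = 1) {χ : Fin (n + 3) → Fin s} {w : Fin (n + 3) → ℂ}
    (h : Lift η χ w) (v : Fin (n + 3)) :
    w (v - 1) = sg (χ (v - 1)) (χ v) * ((starRingEnd ℂ) η * w v) := by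
  have h1 := h.link (v - 1)
  rw [sub_add_cancel] at h1
  rw [h1]
  calc w (v - 1) = 1 * 1 * w (v - 1) := by ring
    _ = (sg (χ (v - 1)) (χ v) * sg (χ (v - 1)) (χ v)) * ((starRingEnd ℂ) η * η) * w (v - 1) := by
      rw [sg_mul_self, conj_mul_self' hη]
    _ = _ := by ring

/-- updating a lift at a vertex by the colour of the left neighbour -/
theorem Lift.update_left {η : ℂ} (hη : ‖η‖ = 1) {χ : Fin (n + 3) → Fin s}
    {w : Fin (n + 3) → ℂ} (h : Lift η χ w) (u : Fin (n + 3))
    (hc : chg (Function.update χ u (χ (u - 1))) = chg χ) :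
    Lift η (Function.update χ u (χ (u - 1))) (Function.update w u (η * w (u - 1))) := by
  have hcu := chg_update χ u (χ (u - 1))
  rw [hc, ch_self] at hcu
  have hsg : sg (χ (u - 1)) (χ (u + 1)) = sg (χ (u - 1)) (χ u) * sg (χ u) (χ (u + 1)) := by
    rw [sg_eq, sg_eq, sg_eq, ← pow_add]
    congr 1
    omega
  refine ⟨fun v => ?_, fun v => ?_⟩
  · by_cases hv : v = u
    · subst hv
      rw [Function.update_self, norm_mul, hη, h.unit, mul_one]
    · rw [Function.update_of_ne hv]
      exact h.unit v
  · by_cases hv : v = u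
    · subst hv
      rw [Function.update_self, Function.update_self, Function.update_of_ne (succ_ne v),
        Function.update_of_ne (succ_ne v), hsg, h.link v]
      have h1 := h.link (v - 1)
      rw [sub_add_cancel] at h1
      rw [h1]
      ring
    · by_cases hv1 : v + 1 = u
      · have hv2 : v = u - 1 := by rw [← hv1, add_sub_cancel_right]
        subst hv2
        rw [sub_add_cancel, Function.update_self, Function.update_self,
          Function.update_of_ne (pred_ne u), Function.update_of_ne (pred_ne u), sg_self, one_mul]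
      · rw [Function.update_of_ne hv, Function.update_of_ne hv, Function.update_of_ne hv1,
          Function.update_of_ne hv1]
        exact h.link v

/-- updating a lift at a vertex by the colour of the right neighbour -/
theorem Lift.update_right {η : ℂ} (hη : ‖η‖ = 1) {χ : Fin (n + 3) → Fin s}
    {w : Fin (n + 3) → ℂ} (h : Lift η χ w) (u : Fin (n + 3))
    (hc : chg (Function.update χ u (χ (u + 1))) = chg χ) :
    Lift η (Function.update χ u (χ (u + 1)))
      (Function.update w u ((starRingEnd ℂ) η * w (u + 1))) := by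
  have hcu := chg_update χ u (χ (u + 1))
  rw [hc, ch_self] at hcu
  have hsg : sg (χ (u - 1)) (χ (u + 1)) = sg (χ (u - 1)) (χ u) * sg (χ u) (χ (u + 1)) := by
    rw [sg_eq, sg_eq, sg_eq, ← pow_add]
    congr 1
    omega
  have hcη := conj_mul_self' hη
  refine ⟨fun v => ?_, fun v => ?_⟩
  · by_cases hv : v = u
    · subst hv
      rw [Function.update_self, norm_mul, RCLike.norm_conj, hη, h.unit, mul_one]
    · rw [Function.update_of_ne hv]
      exact h.unit v
  · by_cases hv : v = u
    · subst hv
      rw [Function.update_self, Function.update_self, Function.update_of_ne (succ_ne v),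
        Function.update_of_ne (succ_ne v), sg_self]
      calc w (v + 1) = 1 * w (v + 1) := by ring
        _ = ((starRingEnd ℂ) η * η) * w (v + 1) := by rw [hcη]
        _ = _ := by ring
    · by_cases hv1 : v + 1 = u
      · have hv2 : v = u - 1 := by rw [← hv1, add_sub_cancel_right]
        subst hv2
        rw [sub_add_cancel, Function.update_self, Function.update_self,
          Function.update_of_ne (pred_ne u), Function.update_of_ne (pred_ne u), hsg, h.link u]
        have h1 := h.link (u - 1)
        rw [sub_add_cancel] at h1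
        rw [h1]
        calc (starRingEnd ℂ) η * (sg (χ u) (χ (u + 1)) *
              (η * (sg (χ (u - 1)) (χ u) * (η * w (u - 1))))) =
            ((starRingEnd ℂ) η * η) * (sg (χ (u - 1)) (χ u) * sg (χ u) (χ (u + 1)) *
              (η * w (u - 1))) := by ring
          _ = _ := by rw [hcη, one_mul]
      · rw [Function.update_of_ne hv, Function.update_of_ne hv, Function.update_of_ne hv1,
          Function.update_of_ne hv1]
        exact h.link v

/-- the turning number -/
noncomputable def eta (n m : ℕ) : ℂ :=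
  if Even m then 1 else Complex.exp ((Real.pi / (n + 3) : ℝ) * Complex.I)

theorem eta_norm (n m : ℕ) : ‖eta n m‖ = 1 := by
  unfold eta
  split_ifs
  · simp
  · exact Complex.norm_exp_ofReal_mul_I _

theorem eta_pow (n m : ℕ) : eta n m ^ (n + 3) * (-1) ^ m = 1 := by
  unfold eta
  split_ifs with h
  · rw [one_pow, h.neg_one_pow, one_mul]
  · rw [(Nat.not_even_iff_odd.1 h).neg_one_pow, ← Complex.exp_nat_mul]
    have : ((n + 3 : ℕ) : ℂ) * (((Real.pi / (n + 3) : ℝ) : ℂ) * Complex.I) =
        Real.pi * Complex.I := by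
      push_cast
      have h3 : ((n : ℂ) + 3) ≠ 0 := by
        have : ((n + 3 : ℕ) : ℂ) ≠ 0 := by exact_mod_cast (by omega : n + 3 ≠ 0)
        push_cast at this
        exact this
      field_simp
    rw [this, Complex.exp_pi_mul_I]
    norm_num

theorem ofNat_val (v : Fin (n + 3)) : Fin.ofNat (n + 3) v.val = v := by
  apply Fin.ext
  simp [Fin.ofNat, Nat.mod_eq_of_lt v.isLt]

theorem exists_lift (χ : Fin (n + 3) → Fin s) :
    ∃ w, Lift (eta n (chg χ)) χ w := by
  obtain ⟨η, hη⟩ : ∃ η, η = eta n (chg χ) := ⟨_, rfl⟩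
  have hn : ‖η‖ = 1 := by rw [hη]; exact eta_norm _ _
  obtain ⟨t, ht⟩ : ∃ t : ℕ → ℂ, t = fun j => ∏ i ∈ range j,
      (sg (χ (Fin.ofNat (n + 3) i)) (χ ((Fin.ofNat (n + 3) i) + 1)) * η) := ⟨_, rfl⟩
  have htn : ∀ j, ‖t j‖ = 1 := by
    intro j
    rw [ht]
    simp only
    rw [norm_prod]
    refine prod_eq_one fun i _ => ?_
    rw [norm_mul, hn, mul_one]
    unfold sg
    split_ifs <;> simp
  have hts : ∀ j, t (j + 1) = sg (χ (Fin.ofNat (n + 3) j)) (χ ((Fin.ofNat (n + 3) j) + 1)) * (η * t j) := by
    intro j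
    rw [ht]
    simp only
    rw [prod_range_succ]
    ring
  have ht0 : t 0 = 1 := by rw [ht]; simp
  have htk : t (n + 3) = 1 := by
    rw [ht]
    simp only
    rw [prod_range (fun i : ℕ => sg (χ (Fin.ofNat (n + 3) i)) (χ ((Fin.ofNat (n + 3) i) + 1)) * η)]
    simp only [ofNat_val]
    rw [prod_mul_distrib, prod_const, card_univ, Fintype.card_fin]
    have : ∏ v, sg (χ v) (χ (v + 1)) = (-1) ^ chg χ := by
      rw [prod_congr rfl fun v _ => sg_eq (χ v) (χ (v + 1)), prod_pow_eq_pow_sum]
      rfl
    rw [this, mul_comm, hη]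
    exact eta_pow n (chg χ)
  refine ⟨fun v => t v.val, fun v => htn _, fun v => ?_⟩
  rw [← hη]
  have h1 := hts v.val
  rw [ofNat_val] at h1
  rw [← h1]
  rcases Nat.lt_or_ge (v.val + 1) (n + 3) with h | h
  · have h2 : (v + 1).val = v.val + 1 := by
      rw [Fin.val_add]
      simp only [Fin.val_one]
      exact Nat.mod_eq_of_lt h
    rw [h2]
  · have h3 : v.val + 1 = n + 3 := by have := v.isLt; omega
    have h2 : (v + 1).val = 0 := by
      rw [Fin.val_add]
      simp only [Fin.val_one]
      rw [h3, Nat.mod_self]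
    rw [h2, h3, htk, ht0]

end Pool.Agent.V5helper99.Urn.Cyc
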