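import Pool.Agent.V5helper99.Urn.StepC

/-!
# The quadratic form on a cycle with cuts
-/

open Finset

namespace Pool.Agent.V5helper99.Urn.Cyc

open Pool.Agent.TH996.Urn

variable {n s : ℕ}

theorem amgm {a b p q : ℝ} (hp : 0 < p) (hq : 0 < q) :
    2 * (a * b) ≤ q / p * a ^ 2 + p / q * b ^ 2 := by
  have h : q / p * a ^ 2 + p / q * b ^ 2 - 2 * (a * b) = (q * a - p * b) ^ 2 / (p * q) := by
    field_simp
    ring
  have h2 : 0 ≤ (q * a - p * b) ^ 2 / (p * q) := by positivity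
  linarith

theorem sum_shift {M : Type} [AddCommMonoid M] (g : Fin (n + 3) → M) :
    ∑ v, g (v + 1) = ∑ v, g v :=
  Fintype.sum_equiv (Equiv.addRight (1 : Fin (n + 3))) _ _ (fun _ => rfl)

open Classical in
theorem run_bound (C : Fin (n + 3) → Prop) (d : Fin (n + 3) → ℕ) (l : ℕ)
    (h1 : ∀ e, ¬ C e → d (e + 1) = d e + 1)
    (h3 : ∀ v, d v + 1 ≤ l) (a : Fin (n + 3) → ℝ) :
    2 * ∑ e, (if C e then 0 else a e * a (e + 1)) ≤
      2 * Real.cos (Real.pi / (l + 1)) * ∑ v, a v ^ 2 := by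
  obtain ⟨θ, hθ⟩ : ∃ θ : ℝ, θ = Real.pi / (l + 1) := ⟨_, rfl⟩
  have hl : (0 : ℝ) < l + 1 := by positivity
  have hθ0 : 0 < θ := by rw [hθ]; positivity
  have hlθ : ((l : ℝ) + 1) * θ = Real.pi := by rw [hθ]; field_simp
  have hd : ∀ v, ((d v : ℝ) + 1) ≤ l := fun v => by exact_mod_cast h3 v
  have hpos : ∀ v, 0 < Real.sin (((d v : ℝ) + 1) * θ) := by
    intro v
    apply Real.sin_pos_of_pos_of_lt_pi
    · positivity
    · rw [← hlθ]
      have := hd v
      nlinarith
  have hnn : ∀ v, 0 ≤ Real.sin (((d v : ℝ) + 2) * θ) := by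
    intro v
    apply Real.sin_nonneg_of_nonneg_of_le_pi
    · positivity
    · rw [← hlθ]
      have := hd v
      nlinarith
  have hnn' : ∀ v, 0 ≤ Real.sin ((d v : ℝ) * θ) := by
    intro v
    apply Real.sin_nonneg_of_nonneg_of_le_pi
    · positivity
    · rw [← hlθ]
      have := hd v
      nlinarith
  rw [← hθ]
  have key : ∀ e, 2 * (if C e then 0 else a e * a (e + 1)) ≤
      Real.sin (((d e : ℝ) + 2) * θ) / Real.sin (((d e : ℝ) + 1) * θ) * a e ^ 2 +
      Real.sin ((d (e + 1) : ℝ) * θ) / Real.sin (((d (e + 1) : ℝ) + 1) * θ) * a (e + 1) ^ 2 := by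
    intro e
    by_cases hC : C e
    · rw [if_pos hC, mul_zero]
      have t1 := hpos e
      have t2 := hpos (e + 1)
      have t3 := hnn e
      have t4 := hnn' (e + 1)
      positivity
    · rw [if_neg hC]
      have hd1 : (d (e + 1) : ℝ) = (d e : ℝ) + 1 := by exact_mod_cast h1 e hC
      have t1 := hpos e
      have t2 := hpos (e + 1)
      rw [hd1] at t2 ⊢
      have e2 : (d e : ℝ) + 1 + 1 = (d e : ℝ) + 2 := by ring
      rw [e2] at t2 ⊢
      exact amgm t1 t2
  rw [mul_sum]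
  refine (sum_le_sum fun e _ => key e).trans (le_of_eq ?_)
  rw [sum_add_distrib, sum_shift (fun v => Real.sin ((d v : ℝ) * θ) /
    Real.sin (((d v : ℝ) + 1) * θ) * a v ^ 2), ← sum_add_distrib, mul_sum]
  refine sum_congr rfl fun v _ => ?_
  have e3 : Real.sin (((d v : ℝ) + 2) * θ) + Real.sin ((d v : ℝ) * θ) =
      2 * Real.cos θ * Real.sin (((d v : ℝ) + 1) * θ) := by
    have e4 : ((d v : ℝ) + 2) * θ = ((d v : ℝ) + 1) * θ + θ := by ring
    have e5 : (d v : ℝ) * θ = ((d v : ℝ) + 1) * θ - θ := by ring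
    rw [e4, e5, Real.sin_add, Real.sin_sub]
    ring
  have t1 := hpos v
  rw [← add_mul, ← add_div, e3, mul_div_assoc, div_self t1.ne', mul_one]

theorem ofNat_succ (j : ℕ) : Fin.ofNat (n + 3) (j + 1) = Fin.ofNat (n + 3) j + 1 := by
  apply Fin.ext
  rw [Fin.val_add]
  simp [Fin.ofNat, Nat.add_mod]

theorem ofNat_zero : Fin.ofNat (n + 3) 0 = 0 := by
  apply Fin.ext; simp [Fin.ofNat]

open Classical in
theorem exists_dist (C : Fin (n + 3) → Prop) (hC : ∃ e, C e) :
    ∃ d : Fin (n + 3) → ℕ, (∀ e, ¬ C e → d (e + 1) = d e + 1) ∧ (∀ e, C e → d (e + 1) = 0) ∧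
      (∀ v e, C e → d v ≤ (v - e - 1).val) := by
  have h : ∀ v : Fin (n + 3), ∃ j : ℕ, C (v - Fin.ofNat (n + 3) j - 1) := by
    intro v
    obtain ⟨e, he⟩ := hC
    refine ⟨(v - e - 1).val, ?_⟩
    rw [ofNat_val]
    have : v - (v - e - 1) - 1 = e := by abel
    rwa [this]
  refine ⟨fun v => Nat.find (h v), fun e he => ?_, fun e he => ?_, fun v e he => ?_⟩
  · show Nat.find (h (e + 1)) = Nat.find (h e) + 1
    rw [Nat.find_eq_iff]
    constructor
    · have h1 := Nat.find_spec (h e)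
      have h2 : e + 1 - Fin.ofNat (n + 3) (Nat.find (h e) + 1) - 1 =
          e - Fin.ofNat (n + 3) (Nat.find (h e)) - 1 := by
        rw [ofNat_succ]; abel
      rwa [h2]
    · intro j hj
      cases j with
      | zero =>
        rw [ofNat_zero]
        have : e + 1 - 0 - 1 = e := by abel
        rwa [this]
      | succ j =>
        have h2 : e + 1 - Fin.ofNat (n + 3) (j + 1) - 1 = e - Fin.ofNat (n + 3) j - 1 := by
          rw [ofNat_succ]; abel
        rw [h2]
        exact Nat.find_min (h e) (by omega)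
  · show Nat.find (h (e + 1)) = 0
    rw [Nat.find_eq_zero, ofNat_zero]
    have : e + 1 - 0 - 1 = e := by abel
    rwa [this]
  · show Nat.find (h v) ≤ (v - e - 1).val
    apply Nat.find_min'
    rw [ofNat_val]
    have : v - (v - e - 1) - 1 = e := by abel
    rwa [this]

open Classical in
theorem sum_cyc {a : Fin (n + 3) → ℝ} (ha : ∀ v, 0 ≤ a v) (χ : Fin (n + 3) → Fin s)
    (C : Fin (n + 3) → Prop) (hC : ∀ e, C e ↔ ¬ χ e = χ (e + 1)) :
    ∑ v, sr (χ v) (χ (v + 1)) * (a v * a (v + 1)) ≤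
      ∑ e, (if C e then 0 else a e * a (e + 1)) := by
  refine sum_le_sum fun v _ => ?_
  unfold sr
  by_cases h : χ v = χ (v + 1)
  · rw [if_pos h, if_neg (fun h' => (hC v).1 h' h), one_mul]
  · rw [if_neg h, if_pos ((hC v).2 h)]
    have := mul_nonneg (ha v) (ha (v + 1))
    linarith

theorem chg_card (χ : Fin (n + 3) → Fin s) :
    chg χ = (univ.filter (fun e => ¬ χ e = χ (e + 1))).card := by
  unfold chg ch
  rw [card_filter]
  refine sum_congr rfl fun v _ => ?_
  by_cases h : χ v = χ (v + 1) <;> simp [h]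

/-- at least one change -/
theorem quad_one {a : Fin (n + 3) → ℝ} (ha : ∀ v, 0 ≤ a v) (χ : Fin (n + 3) → Fin s)
    (h : 1 ≤ chg χ) : 2 * ∑ v, sr (χ v) (χ (v + 1)) * (a v * a (v + 1)) ≤
      2 * Real.cos (Real.pi / ((n : ℝ) + 4)) * ∑ v, a v ^ 2 := by
  classical
  rw [chg_card] at h
  obtain ⟨e0, he0⟩ := card_pos.1 h
  rw [mem_filter] at he0
  obtain ⟨d, h1, -, h3⟩ := exists_dist (fun e => ¬ χ e = χ (e + 1)) ⟨e0, he0.2⟩
  have := run_bound (fun e => ¬ χ e = χ (e + 1)) d (n + 3) h1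
    (fun v => by
      have e1 := h3 v e0 he0.2
      have e2 := (v - e0 - 1).isLt
      omega) a
  have e3 : ((n + 3 : ℕ) : ℝ) + 1 = (n : ℝ) + 4 := by push_cast; ring
  rw [e3] at this
  refine le_trans ?_ this
  have := sum_cyc ha χ (fun e => ¬ χ e = χ (e + 1)) (fun e => Iff.rfl)
  linarith

/-- at least three changes -/
theorem quad_three {a : Fin (n + 3) → ℝ} (ha : ∀ v, 0 ≤ a v) (χ : Fin (n + 3) → Fin s)
    (h : 3 ≤ chg χ) : 2 * ∑ v, sr (χ v) (χ (v + 1)) * (a v * a (v + 1)) ≤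
      2 * Real.cos (Real.pi / ((n : ℝ) + 2)) * ∑ v, a v ^ 2 := by
  classical
  rw [chg_card] at h
  have hne : (univ.filter (fun e => ¬ χ e = χ (e + 1))).Nonempty := card_pos.1 (by omega)
  obtain ⟨e0, he0⟩ := hne
  rw [mem_filter] at he0
  obtain ⟨d, h1, -, h3⟩ := exists_dist (fun e => ¬ χ e = χ (e + 1)) ⟨e0, he0.2⟩
  have h4 : ∀ v : Fin (n + 3), ∃ e, ¬ χ e = χ (e + 1) ∧ (v - e - 1).val ≤ n := by
    intro v
    by_contra hc
    push Not at hc
    have hinj : Set.InjOn (fun e : Fin (n + 3) => (v - e - 1).val)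
        (univ.filter (fun e => ¬ χ e = χ (e + 1)) : Finset (Fin (n + 3))) := by
      intro e _ f _ hef
      have h5 : v - e - 1 = v - f - 1 := Fin.ext hef
      have h6 : v - e = v - f := by
        have := congrArg (fun t => t + 1) h5
        simpa using this
      exact sub_right_injective h6
    have hmaps : ∀ e ∈ univ.filter (fun e => ¬ χ e = χ (e + 1)),
        (fun e : Fin (n + 3) => (v - e - 1).val) e ∈ ({n + 1, n + 2} : Finset ℕ) := by
      intro e he
      rw [mem_filter] at he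
      have e1 := hc e he.2
      have e2 := (v - e - 1).isLt
      rw [mem_insert, mem_singleton]
      show (v - e - 1).val = n + 1 ∨ (v - e - 1).val = n + 2
      omega
    have h7 := card_le_card_of_injOn _ hmaps hinj
    have h8 : ({n + 1, n + 2} : Finset ℕ).card ≤ 2 := card_le_two
    omega
  have := run_bound (fun e => ¬ χ e = χ (e + 1)) d (n + 1) h1
    (fun v => by
      obtain ⟨e, he, he'⟩ := h4 v
      have e1 := h3 v e he
      omega) a
  have e3 : ((n + 1 : ℕ) : ℝ) + 1 = (n : ℝ) + 2 := by push_cast; ring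
  rw [e3] at this
  refine le_trans ?_ this
  have := sum_cyc ha χ (fun e => ¬ χ e = χ (e + 1)) (fun e => Iff.rfl)
  linarith

theorem sr_comm (a b : Fin s) : sr a b = sr b a := by
  unfold sr
  by_cases h : a = b
  · rw [if_pos h, if_pos h.symm]
  · rw [if_neg h, if_neg (fun h' => h h'.symm)]

/-- the sum appearing in the drift of the sum of squares -/
theorem sum_dz (a : Fin (n + 3) → ℝ) (χ : Fin (n + 3) → Fin s) :
    ∑ v, a v * ((2 * sr (χ v) (χ (v + 1)) * a (v + 1) + 1) +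
        (2 * sr (χ v) (χ (v - 1)) * a (v - 1) + 1)) =
      2 * (2 * ∑ v, sr (χ v) (χ (v + 1)) * (a v * a (v + 1))) + 2 * ∑ v, a v := by
  have h1 : ∀ v, a v * ((2 * sr (χ v) (χ (v + 1)) * a (v + 1) + 1) +
        (2 * sr (χ v) (χ (v - 1)) * a (v - 1) + 1)) =
      2 * (sr (χ v) (χ (v + 1)) * (a v * a (v + 1))) +
      2 * (sr (χ (v - 1)) (χ v) * (a (v - 1) * a v)) + 2 * a v := by
    intro v
    rw [sr_comm (χ v) (χ (v - 1))]
    ring
  rw [sum_congr rfl fun v _ => h1 v, sum_add_distrib, sum_add_distrib, ← mul_sum, ← mul_sum,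
    ← mul_sum]
  have h2 : ∑ v, sr (χ (v - 1)) (χ v) * (a (v - 1) * a v) =
      ∑ v, sr (χ v) (χ (v + 1)) * (a v * a (v + 1)) := by
    rw [← sum_shift (fun v => sr (χ (v - 1)) (χ v) * (a (v - 1) * a v))]
    refine sum_congr rfl fun v _ => ?_
    rw [add_sub_cancel_right]
  rw [h2]
  ring

end Pool.Agent.V5helper99.Urn.Cyc
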