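import Pool.Agent.V5helper99.Urn.Lift

/-!
# One step of the urn process on a cycle, in terms of lifts
-/

open Finset

namespace Pool.Agent.V5helper99.Urn.Cyc

open Pool.Agent.TH996.Urn

variable {n s : ℕ}

/-- number of balls -/
def mm (x : Config (Fin (n + 3)) s) (v : Fin (n + 3)) : ℕ := ∑ c, x v c

theorem total_eq (x : Config (Fin (n + 3)) s) : total x = ∑ v, mm x v := rfl

theorem Ext.form {x : Config (Fin (n + 3)) s} {χ : Fin (n + 3) → Fin s} (h : Ext x χ)
    (v : Fin (n + 3)) (d : Fin s) : x v d = if d = χ v then mm x v else 0 := by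
  have h0 : ∀ e, e ≠ χ v → x v e = 0 := by
    intro e he
    by_contra hc
    exact he (h v e (Nat.pos_of_ne_zero hc)).symm
  split_ifs with hd
  · unfold mm
    rw [hd]
    exact (sum_eq_single (χ v) (fun e _ he => h0 e he) (fun h => absurd (mem_univ _) h)).symm
  · exact h0 d hd

theorem exists_ext {x : Config (Fin (n + 3)) s} (hx : Good x) : ∃ χ, Ext x χ := by
  classical
  obtain ⟨v0, c0, -⟩ := (total_pos_iff x).1 hx.2
  refine ⟨fun v => if h : ∃ c, 0 < x v c then h.choose else c0, fun v c hc => ?_⟩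
  have h : ∃ c, 0 < x v c := ⟨c, hc⟩
  simp only [h, dif_pos]
  exact hx.1 v _ _ h.choose_spec hc

theorem adj_iff (v u : Fin (n + 3)) :
    (SimpleGraph.cycleGraph (n + 3)).Adj v u ↔ u = v + 1 ∨ u = v - 1 := by
  rw [SimpleGraph.cycleGraph_adj]
  constructor
  · rintro (h | h)
    · right
      rw [← h]; abel
    · left
      rw [← h]; abel
  · rintro (h | h)
    · right
      rw [h]; abel
    · left
      rw [h]; abel

variable {x : Config (Fin (n + 3)) s} {χ : Fin (n + 3) → Fin s}

theorem step_form {v u : Fin (n + 3)} (huv : u = v + 1 ∨ u = v - 1) {c : Fin s} (hχ : Ext x χ)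
    (d : Fin s) :
    step (SimpleGraph.cycleGraph (n + 3)) x v c u d =
      if mm x u = 0 then (if d = c then 1 else 0)
      else if χ u = c then (if d = χ u then mm x u + 1 else 0)
      else (if d = χ u then mm x u - 1 else 0) := by
  have ha : (SimpleGraph.cycleGraph (n + 3)).Adj v u := (adj_iff v u).2 huv
  unfold step
  rw [if_pos ha]
  have hf := hχ.form u
  by_cases h0 : mm x u = 0
  · rw [if_pos h0, if_neg]
    · rw [hf d, h0]
      split_ifs <;> rfl
    · rintro ⟨e, -, he⟩
      rw [hf e, h0] at he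
      split_ifs at he <;> exact absurd he (lt_irrefl _)
  · rw [if_neg h0]
    by_cases hc : χ u = c
    · rw [if_pos hc, if_neg]
      · rw [hf d, hc]
        split_ifs <;> rfl
      · rintro ⟨e, he, he'⟩
        rw [hf e, hc, if_neg he] at he'
        exact absurd he' (lt_irrefl _)
    · rw [if_neg hc, if_pos]
      · rw [hf d]
        by_cases hd : d = c
        · have : ¬ d = χ u := fun h => hc (by rw [← h, hd])
          rw [if_pos hd, if_neg this, if_neg this]
        · rw [if_neg hd]
          split_ifs <;> rfl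
      · exact ⟨χ u, hc, by rw [hf, if_pos rfl]; exact Nat.pos_of_ne_zero h0⟩

theorem mm_step {v u : Fin (n + 3)} (huv : u = v + 1 ∨ u = v - 1) {c : Fin s} (hχ : Ext x χ) :
    mm (step (SimpleGraph.cycleGraph (n + 3)) x v c) u =
      if mm x u = 0 then 1 else if χ u = c then mm x u + 1 else mm x u - 1 := by
  have h : ∀ d, step (SimpleGraph.cycleGraph (n + 3)) x v c u d = _ :=
    fun d => step_form huv hχ d
  show ∑ d, step (SimpleGraph.cycleGraph (n + 3)) x v c u d = _
  rw [sum_congr rfl fun d _ => h d]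
  split_ifs <;> simp

theorem mm_step_ne {v u : Fin (n + 3)} (h1 : u ≠ v + 1) (h2 : u ≠ v - 1) (c : Fin s) :
    mm (step (SimpleGraph.cycleGraph (n + 3)) x v c) u = mm x u := by
  have h : ¬ (SimpleGraph.cycleGraph (n + 3)).Adj v u := by
    rw [adj_iff]
    rintro (h | h)
    · exact h1 h
    · exact h2 h
  show ∑ d, step (SimpleGraph.cycleGraph (n + 3)) x v c u d = ∑ d, x u d
  exact sum_congr rfl fun d _ => step_of_not_adj _ h

/-- the sign of the interaction -/
def sr (a b : Fin s) : ℝ := if a = b then 1 else -1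

/-- the increment of the number of balls -/
noncomputable def inc (x : Config (Fin (n + 3)) s) (χ : Fin (n + 3) → Fin s)
    (v u : Fin (n + 3)) : ℝ := if mm x u = 0 then 1 else sr (χ v) (χ u)

theorem inc_abs (v u : Fin (n + 3)) : |inc x χ v u| ≤ 1 := by
  unfold inc sr
  split_ifs <;> simp

theorem mm_real {v u : Fin (n + 3)} (huv : u = v + 1 ∨ u = v - 1) {c : Fin s} (hχ : Ext x χ)
    (hv : χ v = c) :
    (mm (step (SimpleGraph.cycleGraph (n + 3)) x v c) u : ℝ) = mm x u + inc x χ v u := by
  rw [mm_step huv hχ]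
  unfold inc sr
  by_cases h0 : mm x u = 0
  · rw [if_pos h0, if_pos h0, h0]
    norm_num
  · rw [if_neg h0, if_neg h0]
    by_cases hc : χ u = c
    · rw [if_pos hc, if_pos (by rw [hv, hc])]
      push_cast
      ring
    · rw [if_neg hc, if_neg (by rw [hv]; exact fun h => hc h.symm)]
      have : 1 ≤ mm x u := Nat.pos_of_ne_zero h0
      push_cast [Nat.cast_sub this]
      ring

theorem mm_sq {v u : Fin (n + 3)} (huv : u = v + 1 ∨ u = v - 1) {c : Fin s} (hχ : Ext x χ)
    (hv : χ v = c) :
    (mm (step (SimpleGraph.cycleGraph (n + 3)) x v c) u : ℝ) ^ 2 =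
      (mm x u : ℝ) ^ 2 + (2 * sr (χ v) (χ u) * mm x u + 1) := by
  rw [mm_real huv hχ hv]
  unfold inc
  by_cases h0 : mm x u = 0
  · rw [if_pos h0, h0]
    norm_num
  · rw [if_neg h0]
    have : sr (χ v) (χ u) ^ 2 = 1 := by
      unfold sr
      split_ifs <;> norm_num
    nlinarith [this]

/-- summation over the cycle of a function changed at the two neighbours -/
theorem sum_two {M : Type} [AddCommGroup M] (f g : Fin (n + 3) → M) (v : Fin (n + 3)) (a b : M)
    (h1 : g (v + 1) = f (v + 1) + a) (h2 : g (v - 1) = f (v - 1) + b)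
    (h3 : ∀ u, u ≠ v + 1 → u ≠ v - 1 → g u = f u) : ∑ u, g u = ∑ u, f u + (a + b) := by
  have h : ∀ u, g u = f u + ((if u = v + 1 then a else 0) + (if u = v - 1 then b else 0)) := by
    intro u
    by_cases hu1 : u = v + 1
    · have : ¬ u = v - 1 := by rw [hu1]; exact succ_ne_pred v
      rw [if_pos hu1, if_neg this, add_zero, hu1, h1]
    · by_cases hu2 : u = v - 1
      · rw [if_neg hu1, if_pos hu2, zero_add, hu2, h2]
      · rw [if_neg hu1, if_neg hu2, add_zero, add_zero, h3 u hu1 hu2]
  rw [sum_congr rfl fun u _ => h u, sum_add_distrib, sum_add_distrib]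
  simp

theorem total_step {v : Fin (n + 3)} {c : Fin s} (hχ : Ext x χ) (hv : χ v = c) :
    (total (step (SimpleGraph.cycleGraph (n + 3)) x v c) : ℝ) =
      total x + (inc x χ v (v + 1) + inc x χ v (v - 1)) := by
  rw [total_eq, total_eq]
  push_cast
  refine sum_two _ _ v _ _ (mm_real (Or.inl rfl) hχ hv) (mm_real (Or.inr rfl) hχ hv) ?_
  intro u h1 h2
  rw [mm_step_ne h1 h2]

/-- sum of squares -/
def zz (x : Config (Fin (n + 3)) s) : ℝ := ∑ u, (mm x u : ℝ) ^ 2

theorem zz_step {v : Fin (n + 3)} {c : Fin s} (hχ : Ext x χ) (hv : χ v = c) :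
    zz (step (SimpleGraph.cycleGraph (n + 3)) x v c) = zz x +
      ((2 * sr (χ v) (χ (v + 1)) * mm x (v + 1) + 1) +
        (2 * sr (χ v) (χ (v - 1)) * mm x (v - 1) + 1)) := by
  unfold zz
  refine sum_two _ _ v _ _ (mm_sq (Or.inl rfl) hχ hv) (mm_sq (Or.inr rfl) hχ hv) ?_
  intro u h1 h2
  rw [mm_step_ne h1 h2]

/-- the linear functional of a lift -/
noncomputable def lf (x : Config (Fin (n + 3)) s) (w : Fin (n + 3) → ℂ) : ℂ :=
  ∑ u, (mm x u : ℂ) * w u

open Classical in
noncomputable def chi1 (x : Config (Fin (n + 3)) s) (χ : Fin (n + 3) → Fin s) (v : Fin (n + 3)) :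
    Fin (n + 3) → Fin s := if mm x (v + 1) = 0 then Function.update χ (v + 1) (χ (v + 1 - 1)) else χ

open Classical in
noncomputable def w1 (x : Config (Fin (n + 3)) s) (η : ℂ) (w : Fin (n + 3) → ℂ)
    (v : Fin (n + 3)) : Fin (n + 3) → ℂ :=
  if mm x (v + 1) = 0 then Function.update w (v + 1) (η * w (v + 1 - 1)) else w

open Classical in
noncomputable def chi2 (x : Config (Fin (n + 3)) s) (χ : Fin (n + 3) → Fin s) (v : Fin (n + 3)) :
    Fin (n + 3) → Fin s := if mm x (v - 1) = 0 then Function.update χ (v - 1) (χ (v - 1 + 1)) else χ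

open Classical in
noncomputable def w2 (x : Config (Fin (n + 3)) s) (η : ℂ) (w : Fin (n + 3) → ℂ)
    (v : Fin (n + 3)) : Fin (n + 3) → ℂ :=
  if mm x (v - 1) = 0 then Function.update w (v - 1) ((starRingEnd ℂ) η * w (v - 1 + 1)) else w

theorem chg_chi1 (v : Fin (n + 3)) : chg (chi1 x χ v) ≤ chg χ := by
  unfold chi1
  split_ifs
  · exact chg_update_left χ (v + 1)
  · exact le_rfl

theorem chg_chi2 (v : Fin (n + 3)) : chg (chi2 x χ v) ≤ chg χ := by
  unfold chi2
  split_ifs
  · exact chg_update_right χ (v - 1)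
  · exact le_rfl

theorem lift1 {η : ℂ} (hη : ‖η‖ = 1) {w : Fin (n + 3) → ℂ} (h : Lift η χ w) (v : Fin (n + 3))
    (hc : chg (chi1 x χ v) = chg χ) : Lift η (chi1 x χ v) (w1 x η w v) := by
  unfold chi1 w1
  unfold chi1 at hc
  split_ifs with h0
  · rw [if_pos h0] at hc
    exact h.update_left hη (v + 1) hc
  · exact h

theorem lift2 {η : ℂ} (hη : ‖η‖ = 1) {w : Fin (n + 3) → ℂ} (h : Lift η χ w) (v : Fin (n + 3))
    (hc : chg (chi2 x χ v) = chg χ) : Lift η (chi2 x χ v) (w2 x η w v) := by
  unfold chi2 w2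
  unfold chi2 at hc
  split_ifs with h0
  · rw [if_pos h0] at hc
    exact h.update_right hη (v - 1) hc
  · exact h

/-- the next extension -/
noncomputable def chiN (x : Config (Fin (n + 3)) s) (χ : Fin (n + 3) → Fin s) (v : Fin (n + 3)) :
    Fin (n + 3) → Fin s := chi2 x (chi1 x χ v) v

noncomputable def wN (x : Config (Fin (n + 3)) s) (η : ℂ) (w : Fin (n + 3) → ℂ)
    (v : Fin (n + 3)) : Fin (n + 3) → ℂ := w2 x η (w1 x η w v) v

theorem chg_chiN (v : Fin (n + 3)) : chg (chiN x χ v) ≤ chg χ :=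
  (chg_chi2 v).trans (chg_chi1 v)

theorem liftN {η : ℂ} (hη : ‖η‖ = 1) {w : Fin (n + 3) → ℂ} (h : Lift η χ w) (v : Fin (n + 3))
    (hc : chg (chiN x χ v) = chg χ) : Lift η (chiN x χ v) (wN x η w v) := by
  have h1 := chg_chi1 (x := x) (χ := χ) v
  have h2 := chg_chi2 (x := x) (χ := chi1 x χ v) v
  unfold chiN at hc
  have h3 : chg (chi1 x χ v) = chg χ := by omega
  have h4 : chg (chi2 x (chi1 x χ v) v) = chg (chi1 x χ v) := by omega
  exact lift2 hη (lift1 hη h v h3) v h4

theorem chi1_ne {v u : Fin (n + 3)} (h : u ≠ v + 1) : chi1 x χ v u = χ u := by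
  unfold chi1
  split_ifs
  · exact Function.update_of_ne h _ _
  · rfl

theorem chi2_ne {v u : Fin (n + 3)} (h : u ≠ v - 1) : chi2 x χ v u = χ u := by
  unfold chi2
  split_ifs
  · exact Function.update_of_ne h _ _
  · rfl

theorem w1_ne {η : ℂ} {w : Fin (n + 3) → ℂ} {v u : Fin (n + 3)} (h : u ≠ v + 1) :
    w1 x η w v u = w u := by
  unfold w1
  split_ifs
  · exact Function.update_of_ne h _ _
  · rfl

theorem w2_ne {η : ℂ} {w : Fin (n + 3) → ℂ} {v u : Fin (n + 3)} (h : u ≠ v - 1) :
    w2 x η w v u = w u := by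
  unfold w2
  split_ifs
  · exact Function.update_of_ne h _ _
  · rfl

theorem ne_succ (v : Fin (n + 3)) : v ≠ v + 1 := (succ_ne v).symm
theorem ne_pred (v : Fin (n + 3)) : v ≠ v - 1 := (pred_ne v).symm

theorem ext_next {v : Fin (n + 3)} {c : Fin s} (hχ : Ext x χ) (hv : χ v = c) :
    Ext (step (SimpleGraph.cycleGraph (n + 3)) x v c) (chiN x χ v) := by
  intro u d hd
  unfold chiN
  by_cases h1 : u = v + 1
  · subst h1
    rw [chi2_ne (succ_ne_pred v)]
    rw [step_form (Or.inl rfl) hχ] at hd
    unfold chi1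
    by_cases h0 : mm x (v + 1) = 0
    · rw [if_pos h0] at hd
      rw [if_pos h0, Function.update_self, add_sub_cancel_right, hv]
      by_contra hne
      rw [if_neg (fun h => hne h.symm)] at hd
      exact lt_irrefl _ hd
    · rw [if_neg h0] at hd
      rw [if_neg h0]
      by_contra hne
      have hne' : ¬ d = χ (v + 1) := fun h => hne h.symm
      rw [if_neg hne', if_neg hne'] at hd
      split_ifs at hd <;> exact lt_irrefl _ hd
  · by_cases h2 : u = v - 1
    · subst h2
      rw [step_form (Or.inr rfl) hχ] at hd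
      unfold chi2
      by_cases h0 : mm x (v - 1) = 0
      · rw [if_pos h0] at hd
        rw [if_pos h0, Function.update_self, sub_add_cancel, chi1_ne (ne_succ v), hv]
        by_contra hne
        rw [if_neg (fun h => hne h.symm)] at hd
        exact lt_irrefl _ hd
      · rw [if_neg h0] at hd
        rw [if_neg h0, chi1_ne h1]
        by_contra hne
        have hne' : ¬ d = χ (v - 1) := fun h => hne h.symm
        rw [if_neg hne', if_neg hne'] at hd
        split_ifs at hd <;> exact lt_irrefl _ hd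
    · rw [chi2_ne h2, chi1_ne h1]
      have ha : ¬ (SimpleGraph.cycleGraph (n + 3)).Adj v u := by
        rw [adj_iff]
        rintro (h | h)
        · exact h1 h
        · exact h2 h
      rw [step_of_not_adj _ ha] at hd
      exact hχ u d hd

theorem lf_step {η : ℂ} (hη : ‖η‖ = 1) {w : Fin (n + 3) → ℂ} (h : Lift η χ w) {v : Fin (n + 3)}
    {c : Fin s} (hχ : Ext x χ) (hv : χ v = c) :
    lf (step (SimpleGraph.cycleGraph (n + 3)) x v c) (wN x η w v) =
      lf x w + (η + (starRingEnd ℂ) η) * w v := by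
  unfold lf
  rw [add_mul]
  refine sum_two _ _ v _ _ ?_ ?_ ?_
  · rw [mm_step (Or.inl rfl) hχ]
    unfold wN
    rw [w2_ne (succ_ne_pred v)]
    unfold w1
    by_cases h0 : mm x (v + 1) = 0
    · rw [if_pos h0, if_pos h0, Function.update_self, h0, add_sub_cancel_right]
      push_cast
      ring
    · rw [if_neg h0, if_neg h0]
      have hl := h.link v
      rw [hv] at hl
      by_cases hc : χ (v + 1) = c
      · rw [if_pos hc]
        rw [hc, sg_self, one_mul] at hl
        rw [← hl]
        push_cast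
        ring
      · rw [if_neg hc]
        have hs : sg c (χ (v + 1)) = -1 := by
          unfold sg
          rw [if_neg (fun h => hc h.symm)]
        rw [hs] at hl
        have hl' : η * w v = - w (v + 1) := by rw [hl]; ring
        rw [hl']
        have : 1 ≤ mm x (v + 1) := Nat.pos_of_ne_zero h0
        push_cast [Nat.cast_sub this]
        ring
  · rw [mm_step (Or.inr rfl) hχ]
    unfold wN w2
    by_cases h0 : mm x (v - 1) = 0
    · rw [if_pos h0, if_pos h0, Function.update_self, h0, sub_add_cancel, w1_ne (ne_succ v)]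
      push_cast
      ring
    · rw [if_neg h0, if_neg h0, w1_ne (succ_ne_pred v).symm]
      have hl := h.back hη v
      rw [hv] at hl
      by_cases hc : χ (v - 1) = c
      · rw [if_pos hc]
        rw [hc, sg_self, one_mul] at hl
        rw [← hl]
        push_cast
        ring
      · rw [if_neg hc]
        have hs : sg (χ (v - 1)) c = -1 := by
          unfold sg
          rw [if_neg hc]
        rw [hs] at hl
        have hl' : (starRingEnd ℂ) η * w v = - w (v - 1) := by rw [hl]; ring
        rw [hl']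
        have : 1 ≤ mm x (v - 1) := Nat.pos_of_ne_zero h0
        push_cast [Nat.cast_sub this]
        ring
  · intro u h1 h2
    rw [mm_step_ne h1 h2]
    unfold wN
    rw [w2_ne h2, w1_ne h1]

/-! ### the rank -/

theorem rk_le (hχ : Ext x χ) : rk x ≤ chg χ := Nat.sInf_le ⟨χ, hχ, rfl⟩

theorem rk_att (hx : Good x) : ∃ χ, Ext x χ ∧ chg χ = rk x := by
  obtain ⟨χ, hχ⟩ := exists_ext hx
  have hne : {m | ∃ χ, Ext x χ ∧ chg χ = m}.Nonempty := ⟨chg χ, χ, hχ, rfl⟩
  exact Nat.sInf_mem hne

theorem rk_step (hx : Good x) {v : Fin (n + 3)} {c : Fin s} (hv : 0 < x v c) :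
    rk (step (SimpleGraph.cycleGraph (n + 3)) x v c) ≤ rk x := by
  obtain ⟨χ, hχ, hr⟩ := rk_att hx
  rw [← hr]
  exact (rk_le (ext_next hχ (hχ v c hv))).trans (chg_chiN v)

/-- walking around the cycle -/
theorem walk (χ : Fin (n + 3) → Fin s) (e : Fin (n + 3)) (h : ∀ v, v ≠ e → χ v = χ (v + 1)) :
    ∀ v, χ v = χ e := by
  have key : ∀ j : ℕ, j < n + 3 → χ (e - Fin.ofNat (n + 3) j) = χ e := by
    intro j
    induction j with
    | zero =>
      intro _
      congr 1
      have : Fin.ofNat (n + 3) 0 = 0 := by apply Fin.ext; simp [Fin.ofNat]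
      rw [this, sub_zero]
    | succ j ih =>
      intro hj
      have h1 : Fin.ofNat (n + 3) (j + 1) = Fin.ofNat (n + 3) j + 1 := by
        apply Fin.ext
        rw [Fin.val_add]
        simp [Fin.ofNat, Nat.add_mod]
      have h2 : e - Fin.ofNat (n + 3) (j + 1) + 1 = e - Fin.ofNat (n + 3) j := by
        rw [h1]; abel
      rw [← ih (by omega), ← h2]
      apply h
      intro h3
      have h4 : Fin.ofNat (n + 3) (j + 1) = 0 := by
        have : e - Fin.ofNat (n + 3) (j + 1) = e - 0 := by rw [h3, sub_zero]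
        exact sub_right_injective this
      have h5 := congrArg Fin.val h4
      simp only [Fin.ofNat, Fin.val_zero] at h5
      rw [Nat.mod_eq_of_lt hj] at h5
      omega
  intro v
  have h1 := key (e - v).val (e - v).isLt
  rw [ofNat_val, sub_sub_cancel] at h1
  exact h1

theorem rk_ne_one (χ : Fin (n + 3) → Fin s) : chg χ ≠ 1 := by
  intro h
  -- some change
  have hex : ∃ e, ch (χ e) (χ (e + 1)) ≠ 0 := by
    by_contra hc
    push Not at hc
    unfold chg at h
    rw [sum_eq_zero fun v _ => hc v] at h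
    omega
  obtain ⟨e, he⟩ := hex
  have he1 : 1 ≤ ch (χ e) (χ (e + 1)) := Nat.pos_of_ne_zero he
  have h1 : ∀ v, v ≠ e → χ v = χ (v + 1) := by
    intro v hv
    by_contra hne
    have h2 : ch (χ v) (χ (v + 1)) = 1 := by unfold ch; rw [if_neg hne]
    unfold chg at h
    rw [← add_sum_erase univ _ (mem_univ e), ← add_sum_erase (univ.erase e) _
      (mem_erase.2 ⟨hv, mem_univ v⟩)] at h
    omega
  have h3 := walk χ e h1 (e + 1)
  apply he
  rw [h3, ch_self]

theorem allMono_of_rk (hx : Good x) (h : rk x = 0) : AllMono x := by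
  obtain ⟨χ, hχ, hr⟩ := rk_att hx
  rw [h] at hr
  have h1 : ∀ v, χ v = χ (v + 1) := by
    intro v
    by_contra hne
    have h2 : ch (χ v) (χ (v + 1)) = 1 := by unfold ch; rw [if_neg hne]
    have h3 : ch (χ v) (χ (v + 1)) ≤ chg χ :=
      single_le_sum (f := fun v => ch (χ v) (χ (v + 1))) (fun _ _ => Nat.zero_le _) (mem_univ v)
    omega
  have h2 := walk χ 0 (fun v _ => h1 v)
  intro u v c d hu hv
  rw [← hχ u c hu, ← hχ v d hv, h2 u, h2 v]

end Pool.Agent.V5helper99.Urn.Cyc
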